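import Mathlib

set_option autoImplicit false

namespace Pool.Agent.H144.Cast

/-- `(1 + x) ^ n = 1 + n x + x ^ 2 k`. -/
theorem one_add_pow (x n : ℕ) : ∃ k, (1 + x) ^ n = 1 + n * x + x ^ 2 * k := by
  induction n with
  | zero => exact ⟨0, by simp⟩
  | succ n ih =>
    obtain ⟨k, hk⟩ := ih
    exact ⟨n + k * (1 + x), by rw [pow_succ, hk]; ring⟩

theorem lift_one (l e u : ℕ) (hl : l.Prime) (he : 2 ≤ e) (hu : ¬ l ∣ u) :
    ∃ u', ¬ l ∣ u' ∧ (1 + l ^ e * u) ^ l = 1 + l ^ (e + 1) * u' := by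
  obtain ⟨k, hk⟩ := one_add_pow (l ^ e * u) l
  obtain ⟨e', rfl⟩ := Nat.exists_eq_add_of_le he
  refine ⟨u + l * (l ^ e' * (u ^ 2 * k)), ?_, ?_⟩
  · intro h
    exact hu ((Nat.dvd_add_left (Dvd.intro _ rfl)).1 h)
  · rw [hk]
    ring

theorem lift_pow (l e u : ℕ) (hl : l.Prime) (he : 2 ≤ e) (hu : ¬ l ∣ u) (k : ℕ) :
    ∃ u', ¬ l ∣ u' ∧ (1 + l ^ e * u) ^ (l ^ k) = 1 + l ^ (e + k) * u' := by
  induction k with
  | zero => exact ⟨u, hu, by simp⟩
  | succ k ih =>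
    obtain ⟨u', hu', h⟩ := ih
    obtain ⟨u'', hu'', h''⟩ := lift_one l (e + k) u' hl (by omega) hu'
    refine ⟨u'', hu'', ?_⟩
    rw [pow_succ, pow_mul, h, h'']
    rfl

theorem lift_coprime (l e u v : ℕ) (hl : l.Prime) (he : 1 ≤ e) (hu : ¬ l ∣ u) (hv : ¬ l ∣ v) :
    ∃ u', ¬ l ∣ u' ∧ (1 + l ^ e * u) ^ v = 1 + l ^ e * u' := by
  obtain ⟨k, hk⟩ := one_add_pow (l ^ e * u) v
  obtain ⟨e', rfl⟩ := Nat.exists_eq_add_of_le he
  refine ⟨v * u + l * (l ^ e' * (u ^ 2 * k)), ?_, ?_⟩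
  · intro h
    have h1 := (Nat.dvd_add_left (Dvd.intro _ rfl)).1 h
    rcases (Nat.Prime.dvd_mul hl).1 h1 with h2 | h2
    · exact hv h2
    · exact hu h2
  · rw [hk]
    ring

theorem cover (l e u : ℕ) (hl : l.Prime) (he : 2 ≤ e) (hu : ¬ l ∣ u) (c t : ℕ) :
    ∃ i, (1 + l ^ e * u) ^ i ≡ 1 + l ^ e * t [MOD l ^ c] := by
  have : Fact l.Prime := ⟨hl⟩
  rcases Nat.lt_or_ge c e with hc | hc
  · refine ⟨0, ?_⟩
    rw [pow_zero]
    have h1 : l ^ e * t ≡ 0 [MOD l ^ c] :=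
      (Nat.modEq_zero_iff_dvd).2 ((pow_dvd_pow l hc.le).trans (Dvd.intro _ rfl))
    simpa using (h1.symm.add_left 1)
  · obtain ⟨d, rfl⟩ := Nat.exists_eq_add_of_le hc
    clear hc
    induction d with
    | zero =>
      refine ⟨0, ?_⟩
      rw [pow_zero]
      have h1 : l ^ e * t ≡ 0 [MOD l ^ (e + 0)] :=
        (Nat.modEq_zero_iff_dvd).2 (Dvd.intro _ rfl)
      simpa using (h1.symm.add_left 1)
    | succ d ih =>
      obtain ⟨i, hi⟩ := ih
      set G := 1 + l ^ e * u with hG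
      obtain ⟨w, hw, hGw⟩ := lift_pow l e u hl he hu d
      rw [← hG] at hGw
      -- the error
      have h1 : ((l ^ (e + d) : ℕ) : ℤ) ∣ ((1 + l ^ e * t : ℕ) : ℤ) - ((G ^ i : ℕ) : ℤ) :=
        (Nat.modEq_iff_dvd).1 hi
      obtain ⟨y, hy⟩ := h1
      have hcop : ((G ^ i * w : ℕ) : ZMod l) ≠ 0 := by
        intro h0
        rw [ZMod.natCast_eq_zero_iff] at h0
        rcases (Nat.Prime.dvd_mul hl).1 h0 with h2 | h2
        · have h3 := hl.dvd_of_dvd_pow h2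
          rw [hG] at h3
          have h4 : l ∣ l ^ e * u := (dvd_pow_self l (by omega)).mul_right u
          have h5 := (Nat.dvd_add_left h4).1 h3
          exact hl.one_lt.ne' (Nat.dvd_one.1 h5)
        · exact hw h2
      set x : ℕ := (((y : ℤ) : ZMod l) * ((G ^ i * w : ℕ) : ZMod l)⁻¹).val with hx
      have hxy : ((x : ℕ) : ZMod l) * ((G ^ i * w : ℕ) : ZMod l) = ((y : ℤ) : ZMod l) := by
        rw [hx, ZMod.natCast_val, ZMod.cast_id', id, mul_assoc, inv_mul_cancel₀ hcop, mul_one]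
      have hdvd : (l : ℤ) ∣ y - (x : ℤ) * ((G ^ i * w : ℕ) : ℤ) := by
        have h6 : (((y - (x : ℤ) * ((G ^ i * w : ℕ) : ℤ) : ℤ)) : ZMod l) = 0 := by
          push_cast
          push_cast at hxy
          rw [hxy, sub_self]
        exact (ZMod.intCast_zmod_eq_zero_iff_dvd _ l).1 h6
      obtain ⟨z, hz⟩ := hdvd
      obtain ⟨k, hk⟩ := one_add_pow (l ^ (e + d) * w) x
      refine ⟨i + l ^ d * x, ?_⟩
      rw [Nat.modEq_iff_dvd]
      have h7 : (((G ^ (i + l ^ d * x) : ℕ)) : ℤ) = ((G ^ i : ℕ) : ℤ) *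
          (1 + (x : ℤ) * ((l : ℤ) ^ (e + d) * w) + ((l : ℤ) ^ (e + d) * w) ^ 2 * k) := by
        rw [pow_add, pow_mul, hGw, hk]
        push_cast
        ring
      rw [h7]
      obtain ⟨e', he'⟩ : ∃ e', e + d = e' + 1 := ⟨e + d - 1, by omega⟩
      have h8 : ((1 + l ^ e * t : ℕ) : ℤ) = ((G ^ i : ℕ) : ℤ) + (l : ℤ) ^ (e + d) * y := by
        have := hy
        push_cast at this ⊢
        linarith
      rw [h8]
      have h9 : y = (x : ℤ) * ((G ^ i * w : ℕ) : ℤ) + l * z := by linarith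
      rw [h9]
      refine ⟨z - ((G ^ i : ℕ) : ℤ) * (l : ℤ) ^ e' * w ^ 2 * k, ?_⟩
      have h10 : (l : ℤ) ^ (e + (d + 1)) = (l : ℤ) ^ (e + d) * l := by
        rw [← pow_succ]; rfl
      have h11 : (l : ℤ) ^ (e + d) = (l : ℤ) ^ e' * l := by rw [he', pow_succ]
      push_cast
      rw [h10]
      linear_combination (-(((G : ℤ) ^ i)) * (l : ℤ) ^ (e + d) * w ^ 2 * k) * h11

/-- **Powers of `q`**: they are congruent to `1` modulo `h` and fill a subgroup of bounded index modulo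
every power of `l`, uniformly in `h`. -/
theorem main_nt (q l : ℕ) (hl : l.Prime) (hq : 2 ≤ q) (hlq : ¬ l ∣ q) :
    ∃ a : ℕ, ∀ s h : ℕ, 0 < h → ¬ l ∣ h →
      (∀ p : ℕ, p.Prime → p ∣ h → ¬ l ^ (s + 1) ∣ orderOf ((q : ℕ) : ZMod p)) →
      ∀ c t : ℕ, ∃ i : ℕ, q ^ i ≡ 1 [MOD h] ∧ q ^ i ≡ 1 + l ^ (a + s) * t [MOD l ^ c] := by
  have : Fact l.Prime := ⟨hl⟩
  set G0 := q ^ (l * (l - 1)) with hG0
  have hG01 : 1 < G0 := Nat.one_lt_pow (Nat.mul_ne_zero hl.ne_zero (by have := hl.two_le; omega)) hq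
  have htot : l ^ 2 ∣ G0 - 1 := by
    have h1 : Nat.Coprime q (l ^ 2) :=
      Nat.Coprime.pow_right 2 ((Nat.Prime.coprime_iff_not_dvd hl).2 hlq).symm
    have h2 := Nat.ModEq.pow_totient h1
    rw [Nat.totient_prime_pow hl (by norm_num)] at h2
    simp only [Nat.add_one_sub_one, pow_one] at h2
    rw [← hG0] at h2
    exact (Nat.modEq_iff_dvd' hG01.le).1 h2.symm
  -- valuation
  obtain ⟨a, u, hu, ha⟩ := Nat.exists_eq_pow_mul_and_not_dvd (n := G0 - 1) (by omega) l hl.one_lt.ne'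
  have ha2 : 2 ≤ a := by
    by_contra hcon
    push Not at hcon
    rw [ha] at htot
    have h1 : l ^ 2 = l ^ a * l ^ (2 - a) := by rw [← pow_add]; congr 1; omega
    rw [h1] at htot
    have h2 := Nat.dvd_of_mul_dvd_mul_left (Nat.pos_of_ne_zero (pow_ne_zero _ hl.ne_zero)) htot
    exact hu ((dvd_pow_self l (by omega)).trans h2)
  have hG : G0 = 1 + l ^ a * u := by omega
  refine ⟨a, ?_⟩
  intro s h hh hlh hord c t
  set L : ℕ := ∏ p ∈ h.primeFactors, ordCompl[l] (orderOf ((q : ℕ) : ZMod p)) with hL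
  have hord0 : ∀ p : ℕ, p.Prime → p ∣ h → orderOf ((q : ℕ) : ZMod p) ≠ 0 := by
    intro p hp hph h0
    apply hord p hp hph
    rw [h0]
    exact dvd_zero _
  have hlL : ¬ l ∣ L * h := by
    intro h1
    rcases (Nat.Prime.dvd_mul hl).1 h1 with h2 | h2
    · rw [hL, Prime.dvd_finsetProd_iff hl.prime] at h2
      obtain ⟨p, hp, h3⟩ := h2
      exact Nat.not_dvd_ordCompl hl (hord0 p (Nat.prime_of_mem_primeFactors hp)
        (Nat.dvd_of_mem_primeFactors hp)) h3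
    · exact hlh h2
  obtain ⟨u1, hu1, h1⟩ := lift_pow l a u hl ha2 hu s
  obtain ⟨u2, hu2, h2⟩ := lift_coprime l (a + s) u1 (L * h) hl (by omega) hu1 hlL
  rw [← h1, ← hG] at h2
  obtain ⟨i, hi⟩ := cover l (a + s) u2 hl (by omega) hu2 c t
  rw [← h2] at hi
  refine ⟨l * (l - 1) * (l ^ s * (L * h) * i), ?_, ?_⟩
  · have hJ : h ∣ q ^ (l ^ s * L * h) - 1 := by
      rw [Nat.dvd_iff_prime_pow_dvd_dvd]
      intro p k hp hpk
      rcases Nat.eq_zero_or_pos k with rfl | hk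
      · simp
      have hph : p ∣ h := (dvd_pow_self p hk.ne').trans hpk
      have h3 : orderOf ((q : ℕ) : ZMod p) ∣ l ^ s * L := by
        have h4 : (orderOf ((q : ℕ) : ZMod p)).factorization l ≤ s := by
          by_contra hcon
          push Not at hcon
          exact hord p hp hph ((pow_dvd_pow l hcon).trans (Nat.ordProj_dvd _ _))
        have h5 := Nat.ordProj_mul_ordCompl_eq_self (orderOf ((q : ℕ) : ZMod p)) l
        rw [← h5]
        apply Nat.mul_dvd_mul (pow_dvd_pow l h4)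
        exact Finset.dvd_prod_of_mem (fun p => ordCompl[l] (orderOf ((q : ℕ) : ZMod p)))
          (Nat.mem_primeFactors.2 ⟨hp, hph, hh.ne'⟩)
      have h6 : ((q : ℕ) : ZMod p) ^ (l ^ s * L) = 1 := orderOf_dvd_iff_pow_eq_one.1 h3
      have h7 : (p : ℤ) ∣ ((q : ℤ) ^ (l ^ s * L)) - 1 := by
        rw [← ZMod.intCast_zmod_eq_zero_iff_dvd]
        push_cast
        rw [h6, sub_self]
      have h8 := dvd_sub_pow_of_dvd_sub h7 k
      rw [one_pow, ← pow_mul] at h8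
      obtain ⟨h', rfl⟩ := hpk
      have h9 : (p : ℤ) ^ k ∣ (q : ℤ) ^ (l ^ s * L * (p ^ k * h')) - 1 := by
        have h10 : (q : ℤ) ^ (l ^ s * L * (p ^ k)) - 1 ∣ (q : ℤ) ^ (l ^ s * L * (p ^ k * h')) - 1 := by
          have := sub_dvd_pow_sub_pow ((q : ℤ) ^ (l ^ s * L * (p ^ k))) 1 h'
          rw [one_pow, ← pow_mul] at this
          have e1 : l ^ s * L * (p ^ k * h') = l ^ s * L * p ^ k * h' := by ring
          rw [e1]
          exact this
        exact (((pow_dvd_pow (p : ℤ) (Nat.le_succ k)).trans h8)).trans h10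
      have h11 : 1 ≤ q ^ (l ^ s * L * (p ^ k * h')) := Nat.one_le_pow _ _ (by omega)
      rw [← Int.natCast_dvd_natCast]
      push_cast [Nat.cast_sub h11]
      exact h9
    have h12 : q ^ (l ^ s * L * h) ≡ 1 [MOD h] :=
      ((Nat.modEq_iff_dvd' (Nat.one_le_pow _ _ (by omega))).2 hJ).symm
    have h13 : q ^ (l * (l - 1) * (l ^ s * (L * h) * i)) =
        (q ^ (l ^ s * L * h)) ^ (l * (l - 1) * i) := by
      rw [← pow_mul]
      congr 1
      ring
    rw [h13]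
    simpa using h12.pow (l * (l - 1) * i)
  · have h14 : q ^ (l * (l - 1) * (l ^ s * (L * h) * i)) =
        ((G0 ^ (l ^ s)) ^ (L * h)) ^ i := by
      rw [hG0, ← pow_mul, ← pow_mul, ← pow_mul]
      congr 1
      ring
    rw [h14]
    exact hi

end Pool.Agent.H144.Cast
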