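import Mathlib
import Pool.Agent.H144.CastGrp

set_option autoImplicit false

namespace Pool.Agent.H144.Cast

open Pool.Agent.Results.MP_52e41e_co.AbelianRankCodes

theorem card_ker_pow {Q : Type} [CommGroup Q] [Finite Q] (l j : ℕ) :
    Nat.card (powMonoidHom (l ^ j) : Q →* Q).ker ≤ Nat.card (powMonoidHom l : Q →* Q).ker ^ j := by
  induction j with
  | zero =>
    rw [pow_zero, pow_zero]
    have h1 : (powMonoidHom 1 : Q →* Q).ker = ⊥ := by
      rw [eq_bot_iff]
      intro x hx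
      rw [MonoidHom.mem_ker, powMonoidHom_apply, pow_one] at hx
      exact hx
    rw [h1]
    simp
  | succ j ih =>
    rw [pow_succ, pow_succ]
    exact (card_ker_mul _ _).trans (Nat.mul_le_mul_right _ ih)

theorem not_dvd_card (F : Type) [Field F] [Fintype F] (l : ℕ) (hl : l.Prime) (hlF : (l : F) ≠ 0) :
    ¬ l ∣ Fintype.card F := by
  intro h
  obtain ⟨p, hp⟩ := CharP.exists F
  obtain ⟨n, hpp, hn⟩ := FiniteField.card F p
  rw [hn] at h
  have h1 := (Nat.prime_dvd_prime_iff_eq hl hpp).1 (hl.dvd_of_dvd_pow h)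
  rw [h1] at hlF
  exact hlF (CharP.cast_eq_zero F p)

/-- a word on a subgroup from a character with a long Frobenius orbit. -/
theorem word_of_char (F : Type) [Field F] [Fintype F] (l m c₁ c h : ℕ) (hl : l.Prime)
    (hh : 0 < h) (hlh : ¬ l ∣ h)
    (hnt : ∀ t : ℕ, ∃ i : ℕ, Fintype.card F ^ i ≡ 1 [MOD h] ∧
      Fintype.card F ^ i ≡ 1 + l ^ c₁ * t [MOD l ^ c])
    (Q : Type) [CommGroup Q] [Fintype Q] (hQF : ((Nat.card Q : ℕ) : F) ≠ 0)
    (hQ : Nat.card Q = l ^ c * h) (C : Submodule F (Q → F))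
    (χ : Q →* (AlgebraicClosure F)ˣ) (hχ : χ ∈ Sp C) (hχ1 : ¬ ∀ x, χ x ^ (h * l ^ (c₁ + m)) = 1) :
    ∃ w ∈ C, w ≠ 0 ∧ ∃ H : Subgroup Q, l ^ m ≤ H.index ∧ ∀ x, w x ≠ 0 → x ∈ H := by
  classical
  have hlpos : 0 < l ^ c := Nat.pos_of_ne_zero (pow_ne_zero _ hl.ne_zero)
  have hcop : Nat.Coprime (l ^ c) h := Nat.Coprime.pow_left c ((Nat.Prime.coprime_iff_not_dvd hl).2 hlh)
  -- powers of the values of `χ`
  have hper : ∀ x (a b : ℕ), a ≡ b [MOD l ^ c * h] → χ x ^ a = χ x ^ b := by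
    intro x a b hab
    apply pow_eq_pow_of_modEq hab
    rw [← hQ, ← map_pow, pow_card_eq_one', map_one]
  obtain ⟨g, hg1, hg0⟩ := Nat.chineseRemainder hcop 1 0
  have hη : ∃ η : Q →* (AlgebraicClosure F)ˣ, ∀ x, η x = χ x ^ (g * l ^ c₁) :=
    ⟨(powMonoidHom (g * l ^ c₁)).comp χ, fun x => rfl⟩
  obtain ⟨η, hη⟩ := hη
  -- the order of the image
  set N := Nat.card η.range with hN
  have hfinr : Finite η.range := by
    have : Finite (Set.range η) := Set.finite_range η |>.to_subtype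
    exact this
  have hNx : ∀ x, η x ^ N = 1 := by
    intro x
    have h1 : (⟨η x, x, rfl⟩ : η.range) ^ N = 1 := pow_card_eq_one'
    exact congrArg Subtype.val h1
  have hNpos : 0 < N := Nat.card_pos
  -- `η ^ (l ^ c) = 1`
  have hηc : ∀ x, η x ^ (l ^ c) = 1 := by
    intro x
    rw [hη, ← pow_mul]
    have h1 : g * l ^ c₁ * l ^ c ≡ 0 [MOD l ^ c * h] := by
      obtain ⟨g', hg'⟩ := (Nat.modEq_zero_iff_dvd).1 hg0
      rw [Nat.modEq_zero_iff_dvd, hg']
      exact ⟨g' * l ^ c₁, by ring⟩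
    rw [hper x _ _ h1, pow_zero]
  have hηm : ¬ ∀ x, η x ^ (l ^ m) = 1 := by
    intro hall
    apply hχ1
    intro x
    have h1 : h * l ^ (c₁ + m) ≡ (g * l ^ c₁ * l ^ m) * h [MOD l ^ c * h] := by
      have h2 : 1 * (h * l ^ (c₁ + m)) ≡ g * (h * l ^ (c₁ + m)) [MOD l ^ c * h] := by
        have h3 : 1 * h ≡ g * h [MOD l ^ c * h] := (Nat.ModEq.mul_right' h hg1.symm)
        have h4 := h3.mul_right (l ^ (c₁ + m))
        have e1 : 1 * h * l ^ (c₁ + m) = 1 * (h * l ^ (c₁ + m)) := by ring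
        have e2 : g * h * l ^ (c₁ + m) = g * (h * l ^ (c₁ + m)) := by ring
        rwa [e1, e2] at h4
      have e3 : g * (h * l ^ (c₁ + m)) = (g * l ^ c₁ * l ^ m) * h := by ring
      rw [one_mul, e3] at h2
      exact h2
    rw [hper x _ _ h1, pow_mul, pow_mul, ← hη, hall x, one_pow]
  -- the exponent
  have hexp : ∃ e, m < e ∧ l ^ e ∣ N := by
    -- the exponent of the range is a power of `l`
    set E := Monoid.exponent η.range with hE
    have hE1 : E ∣ l ^ c := by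
      apply Monoid.exponent_dvd_of_forall_pow_eq_one
      rintro ⟨y, x, rfl⟩
      exact Subtype.ext (hηc x)
    obtain ⟨e, -, he⟩ := (Nat.dvd_prime_pow hl).1 hE1
    have hE2 : E ∣ N := Group.exponent_dvd_nat_card
    refine ⟨e, ?_, he ▸ hE2⟩
    by_contra hcon
    push Not at hcon
    apply hηm
    intro x
    have h1 : (⟨η x, x, rfl⟩ : η.range) ^ E = 1 := Monoid.pow_exponent_eq_one _
    have h2 : η x ^ (l ^ e) = 1 := by
      rw [← he]
      exact congrArg Subtype.val h1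
    rw [← Nat.add_sub_of_le hcon, pow_add, pow_mul, h2, one_pow]
  have hmN : l ^ m ≤ N := by
    obtain ⟨e, he1, he2⟩ := hexp
    exact (Nat.pow_le_pow_right hl.pos he1.le).trans (Nat.le_of_dvd hNpos he2)
  have hNQ : N ∣ Nat.card Q := by
    have h1 := Subgroup.card_mul_index η.ker
    rw [Subgroup.index_ker] at h1
    exact ⟨_, by rw [← h1, mul_comm]⟩
  have hNK : ((N : ℕ) : AlgebraicClosure F) ≠ 0 := by
    intro h0
    apply hQF
    obtain ⟨k, hk⟩ := hNQ
    have h1 : algebraMap F (AlgebraicClosure F) ((Nat.card Q : ℕ) : F) = 0 := by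
      rw [map_natCast, hk, Nat.cast_mul, h0, zero_mul]
    exact (map_eq_zero _).1 h1
  -- the word
  have hmem : ∀ t : ℕ, (fun x => (χ x : AlgebraicClosure F) * (η x : AlgebraicClosure F) ^ t) ∈ ext C := by
    intro t
    obtain ⟨i, hi1, hi2⟩ := hnt t
    have h1 : Fintype.card F ^ i ≡ 1 + g * l ^ c₁ * t [MOD l ^ c * h] := by
      apply (Nat.modEq_and_modEq_iff_modEq_mul hcop).1
      constructor
      · refine hi2.trans ?_
        have h2 : 1 * (l ^ c₁ * t) ≡ g * (l ^ c₁ * t) [MOD l ^ c] := hg1.symm.mul_right _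
        rw [one_mul] at h2
        have e1 : g * l ^ c₁ * t = g * (l ^ c₁ * t) := by ring
        rw [e1]
        exact h2.add_left 1
      · refine hi1.trans ?_
        have h2 : g * (l ^ c₁ * t) ≡ 0 * (l ^ c₁ * t) [MOD h] := hg0.mul_right _
        rw [zero_mul] at h2
        have e1 : g * l ^ c₁ * t = g * (l ^ c₁ * t) := by ring
        rw [e1]
        simpa using (h2.symm.add_left 1)
    have h2 := pow_mem_Sp C χ hχ i
    have h3 : (fun x => (((χ ^ (Fintype.card F ^ i))) x : AlgebraicClosure F)) =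
        fun x => (χ x : AlgebraicClosure F) * (η x : AlgebraicClosure F) ^ t := by
      funext x
      rw [MonoidHom.pow_apply, hper x _ _ h1, hη, pow_add, pow_one, pow_mul]
      push_cast
      ring
    rw [← h3]
    exact h2
  let f : Q → AlgebraicClosure F := fun x =>
    ∑ t ∈ Finset.range N, (χ x : AlgebraicClosure F) * (η x : AlgebraicClosure F) ^ t
  have hf : f ∈ ext C := by
    have h1 : f = ∑ t ∈ Finset.range N,
        (fun x => (χ x : AlgebraicClosure F) * (η x : AlgebraicClosure F) ^ t) := by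
      funext x
      rw [Finset.sum_apply]
    rw [h1]
    exact Submodule.sum_mem _ fun t _ => hmem t
  have hf1 : f 1 ≠ 0 := by
    simp only [f, map_one, Units.val_one, one_pow, mul_one, Finset.sum_const, Finset.card_range,
      nsmul_eq_mul]
    exact hNK
  have hfx : ∀ x, f x ≠ 0 → x ∈ η.ker := by
    intro x hx
    by_contra hk
    rw [MonoidHom.mem_ker] at hk
    apply hx
    have h1 : (η x : AlgebraicClosure F) ≠ 1 := fun h => hk (Units.ext h)
    have h2 : (η x : AlgebraicClosure F) ^ N = 1 := by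
      have := congrArg Units.val (hNx x)
      simpa using this
    simp only [f]
    rw [← Finset.mul_sum, geom_sum_eq h1, h2, sub_self, zero_div, mul_zero]
  obtain ⟨ω, hω⟩ : ∃ ω : AlgebraicClosure F →ₗ[F] F, ω (f 1) ≠ 0 := by
    by_contra hcon
    push Not at hcon
    exact hf1 ((Module.forall_dual_apply_eq_zero_iff F (f 1)).1 hcon)
  refine ⟨_, descend C f hf ω, fun h => hω (congrFun h 1), η.ker, ?_, ?_⟩
  · rw [Subgroup.index_ker]
    exact hmN
  · intro x hx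
    apply hfx
    intro h0
    apply hx
    show ω (f x) = 0
    rw [h0, map_zero]

/-- **The semisimple case.** -/
theorem semis (F : Type) [Field F] [Fintype F] (l : ℕ) (hl : l.Prime) (hlF : (l : F) ≠ 0)
    (ε : ℝ) (hε : 0 < ε) (m : ℕ) :
    ∃ K : ℕ, ∀ (s : ℕ) (Q : Type) [CommGroup Q] [Finite Q], ((Nat.card Q : ℕ) : F) ≠ 0 →
      l ^ (K * (s + 1)) ∣ Nat.card Q →
      (∀ p : ℕ, p.Prime → p ∣ Nat.card Q → p ≠ l →
        ¬ l ^ (s + 1) ∣ orderOf ((Fintype.card F : ℕ) : ZMod p)) →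
      ∀ C : Submodule F (Q → F), (∀ g : Q, ∀ c ∈ C, (fun x => c (g * x)) ∈ C) →
      ε * Nat.card Q ≤ Module.finrank F C →
      ∃ c ∈ C, c ≠ 0 ∧ ∃ H : Subgroup Q, l ^ m ≤ H.index ∧ ∀ x, c x ≠ 0 → x ∈ H := by
  classical
  have : Fact l.Prime := ⟨hl⟩
  obtain ⟨r, hr⟩ := semisimple_case F l hlF ε hε m
  obtain ⟨a₁, ha₁⟩ := main_nt (Fintype.card F) l hl Fintype.one_lt_card
    (not_dvd_card F l hl hlF)
  obtain ⟨e₀, he₀⟩ : ∃ e₀ : ℕ, 1 / ε < (l : ℝ) ^ e₀ :=
    pow_unbounded_of_one_lt _ (by exact_mod_cast hl.one_lt)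
  refine ⟨r * (a₁ + m + 1) + e₀, ?_⟩
  intro s Q _ _ hQF hdvd hord C hC hdim
  set c₁ := a₁ + s with hc₁def
  have hc₁ := ha₁ s
  rw [← hc₁def] at hc₁
  set c₀ := (r * (a₁ + m + 1) + e₀) * (s + 1) with hc₀def
  have hl1 : (1 : ℝ) ≤ l := by exact_mod_cast hl.one_lt.le
  have hc₀ : (l : ℝ) ^ (r * (c₁ + m)) / ε < (l : ℝ) ^ c₀ := by
    have h1 : r * (c₁ + m) + e₀ ≤ c₀ := by
      rw [hc₀def, hc₁def]
      nlinarith [Nat.zero_le (r * (a₁ + m) * s), Nat.zero_le (e₀ * s), Nat.zero_le r]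
    have hlpos : (0 : ℝ) < (l : ℝ) ^ (r * (c₁ + m)) := by positivity
    calc (l : ℝ) ^ (r * (c₁ + m)) / ε = (l : ℝ) ^ (r * (c₁ + m)) * (1 / ε) := by ring
      _ < (l : ℝ) ^ (r * (c₁ + m)) * (l : ℝ) ^ e₀ := mul_lt_mul_of_pos_left he₀ hlpos
      _ = (l : ℝ) ^ (r * (c₁ + m) + e₀) := by rw [pow_add]
      _ ≤ (l : ℝ) ^ c₀ := pow_le_pow_right₀ hl1 h1
  have iQ := Fintype.ofFinite Q
  have hQpos : 0 < Nat.card Q := Nat.card_pos
  obtain ⟨c, h, hlh, hQ⟩ := Nat.exists_eq_pow_mul_and_not_dvd hQpos.ne' l hl.one_lt.ne'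
  have hh : 0 < h := by
    rcases Nat.eq_zero_or_pos h with h0 | h0
    · rw [h0] at hlh
      exact (hlh (dvd_zero _)).elim
    · exact h0
  have hcc : c₀ ≤ c := by
    rw [hQ] at hdvd
    have h1 : Nat.Coprime (l ^ c₀) h := Nat.Coprime.pow_left c₀ ((Nat.Prime.coprime_iff_not_dvd hl).2 hlh)
    have h2 := h1.dvd_of_dvd_mul_right hdvd
    exact (Nat.pow_dvd_pow_iff_le_right hl.one_lt).1 h2
  by_cases hrank : l ^ r ≤ Nat.card (powMonoidHom l : Q →* Q).ker
  · obtain ⟨π, hπ⟩ := exists_surj l r hl hrank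
    obtain ⟨w, hw, hw0, Λ, hΛ, hwΛ⟩ := hr Q hQF π hπ C hC hdim
    refine ⟨w, hw, hw0, Λ.ker, ?_, fun x hx => ?_⟩
    · rw [Subgroup.index_ker, MonoidHom.range_eq_top.2 hΛ, Subgroup.card_top]
      rw [Nat.card_congr (Multiplicative.toAdd (α := Fin m → ZMod l)), Nat.card_fun]
      simp
    · rw [MonoidHom.mem_ker]
      exact hwΛ x hx
  · push Not at hrank
    set k := h * l ^ (c₁ + m) with hk
    have hker : Nat.card (powMonoidHom k : Q →* Q).ker ≤ h * (l ^ r) ^ (c₁ + m) := by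
      refine (card_ker_mul _ _).trans (Nat.mul_le_mul (card_ker_coprime l c h hl hh hlh hQ) ?_)
      exact (card_ker_pow _ _).trans (Nat.pow_le_pow_left hrank.le _)
    have hex : ∃ χ ∈ Sp C, ¬ ∀ x, χ x ^ k = 1 := by
      by_contra hcon
      push Not at hcon
      obtain ⟨hfin, -, -⟩ := exists_dual F Q hQF
      have h1 : Nat.card (Sp C) ≤ Nat.card {χ : Q →* (AlgebraicClosure F)ˣ // χ ^ k = 1} := by
        refine Nat.card_le_card_of_injective (fun χ => ⟨χ.1, ?_⟩) ?_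
        · apply MonoidHom.ext
          intro x
          exact hcon χ.1 χ.2 x
        · intro χ χ' hχ
          exact Subtype.ext (congrArg (fun z => z.1) hχ)
      have h2 := (finrank_le_card hQF C hC).trans (h1.trans ((card_chars hQF k).trans hker))
      have h3 : (Module.finrank F C : ℝ) ≤ h * ((l : ℝ) ^ r) ^ (c₁ + m) := by exact_mod_cast h2
      have h4 : (Nat.card Q : ℝ) = (l : ℝ) ^ c * h := by rw [hQ]; push_cast; ring
      rw [h4] at hdim
      have hhR : (0 : ℝ) < h := by exact_mod_cast hh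
      have h5 : (l : ℝ) ^ c₀ ≤ (l : ℝ) ^ c := pow_le_pow_right₀ (by exact_mod_cast hl.one_lt.le) hcc
      rw [div_lt_iff₀ hε] at hc₀
      rw [← pow_mul] at h3
      have h6 : (h : ℝ) * (l : ℝ) ^ (r * (c₁ + m)) < h * ((l : ℝ) ^ c * ε) := by
        apply mul_lt_mul_of_pos_left _ hhR
        exact hc₀.trans_le (mul_le_mul_of_nonneg_right h5 hε.le)
      linarith
    obtain ⟨χ, hχ, hχ1⟩ := hex
    refine word_of_char F l m c₁ c h hl hh hlh ?_ Q hQF hQ C χ hχ hχ1
    intro t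
    refine hc₁ h hh hlh ?_ c t
    intro p hp hph
    refine hord p hp (hQ ▸ hph.mul_left _) ?_
    rintro rfl
    exact hlh hph

end Pool.Agent.H144.Cast
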