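import Mathlib
import Pool.Agent.H144.CastMain


set_option autoImplicit false

namespace Pool.Agent.H144.Cast

open Finset

theorem gen_case (F : Type) [Field F] [Fintype F] (l : ℕ) (hl : l.Prime) (hlF : (l : F) ≠ 0)
    (ε : ℝ) (hε : 0 < ε) (m : ℕ) :
    ∃ K : ℕ, ∀ (s : ℕ) (A : Type) [CommGroup A] [Finite A], l ^ (K * (s + 1)) ∣ Nat.card A →
      (∀ p : ℕ, p.Prime → p ∣ Nat.card A → p ≠ l → (p : F) ≠ 0 →
        ¬ l ^ (s + 1) ∣ orderOf ((Fintype.card F : ℕ) : ZMod p)) →
      ∀ C : Submodule F (A → F), (∀ g : A, ∀ c ∈ C, (fun x => c (g * x)) ∈ C) →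
      ε * Nat.card A ≤ Module.finrank F C →
      ∃ c ∈ C, c ≠ 0 ∧ ∃ H : Subgroup A, l ^ m ≤ H.index ∧ ∀ x, c x ≠ 0 → x ∈ H := by
  classical
  obtain ⟨K, hK⟩ := semis F l hl hlF ε hε m
  refine ⟨K, ?_⟩
  intro s A _ _ hdvd hord C hC hdim
  have hc₀ := hK s
  set c₀ := K * (s + 1) with hc₀def
  have := Fintype.ofFinite A
  obtain ⟨q, hchar⟩ := CharP.exists F
  have hq : q.Prime := CharP.char_is_prime F q
  have : Fact q.Prime := ⟨hq⟩
  have hpq : l ≠ q := by
    rintro rfl
    exact hlF (CharP.cast_eq_zero F l)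
  have P : Sylow q A := default
  obtain ⟨k, hk⟩ := (IsPGroup.iff_card (p := q)).1 P.isPGroup'
  have hcardA : Nat.card A = Nat.card (A ⧸ (P : Subgroup A)) * q ^ k := by
    rw [← hk]
    exact Subgroup.card_eq_card_quotient_mul_card_subgroup _
  have hodd : ((Nat.card (A ⧸ (P : Subgroup A)) : ℕ) : F) ≠ 0 := by
    rw [Ne, CharP.cast_eq_zero_iff F q]
    exact P.not_dvd_index
  set C' := H70.TP.pull (QuotientGroup.mk (s := (P : Subgroup A))) C with hC'
  have : Fintype (A ⧸ (P : Subgroup A)) := Fintype.ofFinite _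
  have h3 : Module.finrank F C ≤ q ^ k * Module.finrank F C' := by
    refine H70.TP.quot_dim' (p := q) (G := P) (X := A) P.isPGroup'
      (QuotientGroup.mk (s := (P : Subgroup A))) ?_ ?_ (q ^ k) ?_ C (fun g c hc => hC g.1 c hc)
    · intro g x
      show QuotientGroup.mk (g.1 * x) = (QuotientGroup.mk x : A ⧸ (P : Subgroup A))
      rw [mul_comm]
      exact QuotientGroup.mk_mul_of_mem x g.2
    · intro x x' h
      have h1 := QuotientGroup.eq.1 h
      refine ⟨⟨x⁻¹ * x', h1⟩, ?_⟩
      show x⁻¹ * x' * x = x'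
      rw [mul_comm, ← mul_assoc, mul_inv_cancel, one_mul]
    · intro z
      induction z using QuotientGroup.induction_on with
      | H z =>
        rw [← hk, Nat.card_eq_fintype_card, ← Finset.card_univ]
        refine Finset.card_le_card_of_injOn (fun x => if h : z⁻¹ * x ∈ (P : Subgroup A) then
          ⟨z⁻¹ * x, h⟩ else 1) (fun _ _ => Finset.mem_coe.2 (Finset.mem_univ _)) ?_
        intro x hx y hy hxy
        have hx' : (QuotientGroup.mk x : A ⧸ (P : Subgroup A)) = QuotientGroup.mk z := by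
          simpa using hx
        have hy' : (QuotientGroup.mk y : A ⧸ (P : Subgroup A)) = QuotientGroup.mk z := by
          simpa using hy
        have h1 : z⁻¹ * x ∈ (P : Subgroup A) := QuotientGroup.eq.1 hx'.symm
        have h2 : z⁻¹ * y ∈ (P : Subgroup A) := QuotientGroup.eq.1 hy'.symm
        simp only [h1, h2, dif_pos] at hxy
        have h3 := congrArg Subtype.val hxy
        exact mul_left_cancel h3
  have hdvd' : l ^ c₀ ∣ Nat.card (A ⧸ (P : Subgroup A)) := by
    rw [hcardA] at hdvd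
    have h1 : Nat.Coprime (l ^ c₀) (q ^ k) :=
      Nat.Coprime.pow _ _ ((Nat.coprime_primes hl hq).2 hpq)
    exact h1.dvd_of_dvd_mul_right hdvd
  obtain ⟨c, hc, hc0, H, hH, hcH⟩ := hc₀ (A ⧸ (P : Subgroup A)) hodd hdvd'
    (by
      intro p hp hpd hpl
      refine hord p hp ?_ hpl ?_
      · rw [hcardA]
        exact hpd.mul_right _
      · rw [Ne, CharP.cast_eq_zero_iff F q]
        intro hqp
        have h1 := (Nat.prime_dvd_prime_iff_eq hq hp).1 hqp
        rw [← h1] at hpd
        exact P.not_dvd_index hpd) C'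
    (by
      intro g c hc
      induction g using QuotientGroup.induction_on with
      | H g => exact hC g _ hc)
    (by
      have h5 : (Module.finrank F C : ℝ) ≤ q ^ k * Module.finrank F C' := by
        exact_mod_cast h3
      rw [hcardA] at hdim
      push_cast at hdim
      have h6 : (0 : ℝ) < q ^ k := by
        have : (0 : ℝ) < q := by exact_mod_cast hq.pos
        positivity
      rw [← mul_le_mul_iff_of_pos_left h6]
      calc _ = ε * (Nat.card (A ⧸ (P : Subgroup A)) * q ^ k) := by ring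
        _ ≤ _ := hdim.trans h5)
  refine ⟨_, hc, ?_, H.comap (QuotientGroup.mk' _), ?_, fun x hx => hcH _ hx⟩
  · intro h
    apply hc0
    funext q
    induction q using QuotientGroup.induction_on with
    | H x => exact congrFun h x
  · rw [Subgroup.index_comap_of_surjective _ (QuotientGroup.mk'_surjective _)]
    exact hH

/-- Abelian codes with a large `l`-part. -/
theorem lpart (F : Type) [Field F] [Fintype F] [DecidableEq F] (l : ℕ) (hl : l.Prime)
    (hlF : (l : F) ≠ 0) (δ ε : ℝ) (hδ : 0 < δ) (hε : 0 < ε) :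
    ∃ K : ℕ, ∀ (s : ℕ) (A Ω : Type) [CommGroup A] [Fintype Ω] [MulAction A Ω] [FaithfulSMul A Ω]
      [MulAction.IsPretransitive A Ω], l ^ (K * (s + 1)) ∣ Fintype.card Ω →
      (∀ p : ℕ, p.Prime → p ∣ Fintype.card Ω → p ≠ l → (p : F) ≠ 0 →
        ¬ l ^ (s + 1) ∣ orderOf ((Fintype.card F : ℕ) : ZMod p)) →
      ∀ C : Submodule F (Ω → F), (∀ a : A, ∀ f ∈ C, (fun ω => f (a • ω)) ∈ C) →
      (∀ f ∈ C, f ≠ 0 → δ * Fintype.card Ω ≤ hammingNorm f) →
      (Module.finrank F C : ℝ) ≤ ε * Fintype.card Ω := by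
  obtain ⟨m, hm⟩ : ∃ m : ℕ, 1 / δ < (2 : ℝ) ^ m := pow_unbounded_of_one_lt _ (by norm_num)
  obtain ⟨K, hK⟩ := gen_case F l hl hlF ε hε m
  refine ⟨K, ?_⟩
  intro s A Ω _ _ _ _ _ hdvd hord C hinv hd
  have h := hK s
  by_contra hcon
  push Not at hcon
  have hΩ : Nonempty Ω := by
    by_contra hne
    have : IsEmpty Ω := not_nonempty_iff.1 hne
    have h1 : Fintype.card Ω = 0 := Fintype.card_eq_zero
    have h2 : Module.finrank F C ≤ 0 := by
      refine (Submodule.finrank_le _).trans ?_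
      rw [Module.finrank_fintype_fun_eq_card, h1]
    have h3 : (Module.finrank F C : ℝ) ≤ 0 := by exact_mod_cast h2
    rw [h1] at hcon
    simp only [Nat.cast_zero, mul_zero] at hcon
    linarith
  obtain ⟨x₀⟩ := hΩ
  have hbij : Function.Bijective fun g : A => g • x₀ := by
    constructor
    · intro g h hgh
      apply FaithfulSMul.eq_of_smul_eq_smul (α := Ω)
      intro y
      obtain ⟨σ, rfl⟩ := MulAction.exists_smul_eq A x₀ y
      rw [smul_comm g σ x₀, smul_comm h σ x₀]
      exact congrArg (σ • ·) hgh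
    · intro y
      exact MulAction.exists_smul_eq A x₀ y
  let e : A ≃ Ω := Equiv.ofBijective _ hbij
  have : Finite A := Finite.of_equiv _ e.symm
  have hGn : Nat.card A = Fintype.card Ω := by
    rw [Nat.card_congr e, Nat.card_eq_fintype_card]
  let E := LinearEquiv.funCongrLeft F F e
  obtain ⟨c', ⟨c, hcC, rfl⟩, hc0, H, hH, hcH⟩ := h A (by rw [hGn]; exact hdvd)
    (by rw [hGn]; exact hord) (C.map (E : (Ω → F) →ₗ[F] _))
    (by
      rintro g _ ⟨c, hc, rfl⟩
      refine ⟨_, hinv g c hc, ?_⟩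
      funext x
      show c (g • x • x₀) = c ((g * x) • x₀)
      rw [mul_smul])
    (by
      rw [hGn, LinearEquiv.finrank_map_eq]
      exact hcon.le)
  have hc0' : c ≠ 0 := by
    rintro rfl
    exact hc0 (map_zero _)
  have h1 := hd c hcC hc0'
  have h2 : hammingNorm c ≤ Nat.card H := by
    have h3 : hammingNorm c = Nat.card {x : Ω // c x ≠ 0} := by
      rw [Nat.card_eq_fintype_card, Fintype.card_subtype]
      rfl
    rw [h3]
    refine Nat.card_le_card_of_injective (fun x => ⟨e.symm x.1, ?_⟩) ?_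
    · apply hcH
      show c (e (e.symm x.1)) ≠ 0
      rw [Equiv.apply_symm_apply]
      exact x.2
    · intro x y hxy
      exact Subtype.ext (e.symm.injective (congrArg Subtype.val hxy))
  have h3 : Nat.card H * H.index = Fintype.card Ω := by
    rw [Subgroup.card_mul_index, hGn]
  have h4 : (Nat.card H : ℝ) * H.index = Fintype.card Ω := by exact_mod_cast h3
  have h5 : (hammingNorm c : ℝ) ≤ Nat.card H := by exact_mod_cast h2
  have h6 : (2 : ℝ) ^ m ≤ (l : ℝ) ^ m :=
    pow_le_pow_left₀ (by norm_num) (by exact_mod_cast hl.two_le) m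
  have h6' : (l : ℝ) ^ m ≤ H.index := by exact_mod_cast hH
  have h7 : 1 / δ < (H.index : ℝ) := (hm.trans_le h6).trans_le h6'
  rw [div_lt_iff₀ hδ] at h7
  have h8 : (0 : ℝ) < Nat.card H := by exact_mod_cast Nat.card_pos
  have h9 : (Nat.card H : ℝ) * 1 < Nat.card H * (H.index * δ) := mul_lt_mul_of_pos_left h7 h8
  have h10 : (Nat.card H : ℝ) * (H.index * δ) = δ * Fintype.card Ω := by
    rw [← h4]
    ring
  linarith

end Pool.Agent.H144.Cast
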