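import Mathlib

set_option autoImplicit false

namespace Pool.Agent.H144.Rep

open Finset

section ring

variable {R S : Type*} [CommRing R] [CommRing S] [Algebra R S]

theorem pow_mem (M : Ideal R) [hM : M.IsMaximal] (y s : S) (n j : ℕ) (hy : y ^ n = 0)
    (hspan : ∃ σ : ℕ → R, s = ∑ l ∈ range n, σ l • y ^ l) (L : S →ₗ[R] R) (hL : L s = 1)
    (hLj : ∀ w, L (y ^ j * w) = 0) :
    y ^ (j - 1) ∈ Ideal.span {s} ⊔ M.map (algebraMap R S) := by
  classical
  obtain ⟨σ, hσ⟩ := hspan
  -- some coefficient below `j` is outside `M`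
  have hex : ∃ l, l < j ∧ l < n ∧ σ l ∉ M := by
    by_contra hcon
    push Not at hcon
    have h1 : L s ∈ M := by
      rw [hσ, map_sum]
      refine sum_mem fun l hl => ?_
      rw [map_smul, smul_eq_mul]
      by_cases h : l < j
      · exact M.mul_mem_right _ (hcon l h (mem_range.1 hl))
      · have h2 : y ^ l = y ^ j * y ^ (l - j) := by
          rw [← pow_add]
          congr 1
          omega
        rw [h2, hLj, mul_zero]
        exact M.zero_mem
    rw [hL] at h1
    exact hM.ne_top ((Ideal.eq_top_iff_one M).2 h1)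
  -- the least one
  obtain ⟨a, ⟨ha1, ha2, ha3⟩, hmin⟩ : ∃ a, (a < j ∧ a < n ∧ σ a ∉ M) ∧ ∀ l < a, σ l ∈ M := by
    refine ⟨Nat.find hex, Nat.find_spec hex, ?_⟩
    intro l hl
    by_contra hcon
    have h1 := Nat.find_spec hex
    exact Nat.find_min hex hl ⟨by omega, by omega, hcon⟩
  obtain ⟨τ, hτ⟩ : ∃ τ, τ * σ a - 1 ∈ M := by
    obtain ⟨τ, m, hm, hτ⟩ := hM.exists_inv ha3
    refine ⟨τ, ?_⟩
    have : τ * σ a - 1 = -m := by
      linear_combination hτ
    rw [this]
    exact M.neg_mem hm
  set I : Ideal S := Ideal.span {s} ⊔ M.map (algebraMap R S) with hI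
  have hMI : ∀ (m : R) (w : S), m ∈ M → m • w ∈ I := by
    intro m w hm
    rw [Algebra.smul_def]
    exact I.mul_mem_right _ (Ideal.mem_sup_right (Ideal.mem_map_of_mem _ hm))
  have hs : s ∈ I := Ideal.mem_sup_left (Ideal.mem_span_singleton_self s)
  -- split the sum
  obtain ⟨w, hw⟩ : ∃ w, ∑ l ∈ range n, σ l • y ^ l = ∑ l ∈ range a, σ l • y ^ l +
      y ^ a * (algebraMap R S (σ a) + y * w) := by
    refine ⟨∑ l ∈ range (n - (a + 1)), σ (a + 1 + l) • y ^ l, ?_⟩
    have h1 : n = a + 1 + (n - (a + 1)) := by omega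
    conv_lhs => rw [h1]
    rw [sum_range_add, sum_range_succ, mul_add, ← mul_assoc, ← pow_succ, mul_sum, add_assoc]
    congr 2
    · rw [Algebra.smul_def, mul_comm]
    · refine sum_congr rfl fun l _ => ?_
      rw [pow_add, mul_smul_comm]
  have h3 : y ^ a * (algebraMap R S (σ a) + y * w) ∈ I := by
    have h4 : y ^ a * (algebraMap R S (σ a) + y * w) = s - ∑ l ∈ range a, σ l • y ^ l := by
      rw [hσ, hw]
      ring
    rw [h4]
    exact I.sub_mem hs (sum_mem fun l hl => hMI _ _ (hmin l (mem_range.1 hl)))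
  have h5 : y ^ a * (1 + y * (algebraMap R S τ * w)) ∈ I := by
    have h6 : y ^ a * (1 + y * (algebraMap R S τ * w)) =
        algebraMap R S τ * (y ^ a * (algebraMap R S (σ a) + y * w)) -
        (τ * σ a - 1) • y ^ a := by
      rw [Algebra.smul_def, map_sub, map_mul, map_one]
      ring
    rw [h6]
    exact I.sub_mem (I.mul_mem_left _ h3) (hMI _ _ hτ)
  have hu : IsUnit (1 + y * (algebraMap R S τ * w)) := by
    apply IsNilpotent.isUnit_one_add
    exact ⟨n, by rw [mul_pow, hy, zero_mul]⟩
  have h7 : y ^ a ∈ I := (Ideal.mul_unit_mem_iff_mem I hu).1 h5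
  have h8 : y ^ (j - 1) = y ^ (j - 1 - a) * y ^ a := by
    rw [← pow_add]
    congr 1
    omega
  rw [h8]
  exact I.mul_mem_left _ h7

/-- The powers of `y` below `j - 1` generate `S / (s)` over `R`. -/
theorem span_top [Module.Finite R S] (y s : S) (n j : ℕ) (hy : y ^ n = 0)
    (hspan : ∀ s : S, ∃ σ : ℕ → R, s = ∑ l ∈ range n, σ l • y ^ l) (L : S →ₗ[R] R) (hL : L s = 1)
    (hLj : ∀ w, L (y ^ j * w) = 0) :
    Submodule.span R ((fun i : ℕ => y ^ i) '' Set.Iio (j - 1)) ⊔
      (Ideal.span {s}).restrictScalars R = ⊤ := by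
  classical
  set N : Submodule R S := Submodule.span R ((fun i : ℕ => y ^ i) '' Set.Iio (j - 1)) ⊔
      (Ideal.span {s}).restrictScalars R with hN
  -- the conductor
  set 𝔞 : Ideal R := (⊤ : Submodule R S).colon (N : Set S) with h𝔞
  by_contra hne
  have hann : (N.colon (Set.univ : Set S)) ≠ ⊤ := by
    intro h
    apply hne
    rw [eq_top_iff]
    intro x _
    have h1 : (1 : R) ∈ N.colon (Set.univ : Set S) := by rw [h]; exact Submodule.mem_top
    have h2 := Submodule.mem_colon.1 h1 x (Set.mem_univ x)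
    rwa [one_smul] at h2
  obtain ⟨M, hM, hle⟩ := Ideal.exists_le_maximal _ hann
  have hmem := pow_mem M y s n j hy (hspan s) L hL hLj
  have htop : (⊤ : Submodule R S) ≤ N ⊔ M • (⊤ : Submodule R S) := by
    intro x _
    obtain ⟨σ, rfl⟩ := hspan x
    refine sum_mem fun l _ => Submodule.smul_mem _ _ ?_
    by_cases hl : l < j - 1
    · exact Submodule.mem_sup_left (Submodule.mem_sup_left (Submodule.subset_span ⟨l, hl, rfl⟩))
    · have h1 : y ^ l ∈ Ideal.span {s} ⊔ M.map (algebraMap R S) := by
        have h2 : y ^ l = y ^ (l - (j - 1)) * y ^ (j - 1) := by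
          rw [← pow_add]
          congr 1
          omega
        rw [h2]
        exact Ideal.mul_mem_left _ _ hmem
      obtain ⟨u, hu, v, hv, huv⟩ := Submodule.mem_sup.1 h1
      rw [← huv]
      refine add_mem (Submodule.mem_sup_left (Submodule.mem_sup_right hu))
        (Submodule.mem_sup_right ?_)
      rw [Ideal.smul_top_eq_map]
      exact hv
  obtain ⟨r, hr1, hr2⟩ := Submodule.exists_sub_one_mem_and_smul_le_of_fg_of_le_sup
    (I := M) (N := N) (N' := (⊤ : Submodule R S)) (P := ⊤) Module.Finite.fg_top le_rfl htop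
  have hrM : r ∈ M := by
    apply hle
    rw [Submodule.mem_colon]
    intro x _
    exact hr2 (Submodule.smul_mem_pointwise_smul x r ⊤ Submodule.mem_top)
  have h1M : (1 : R) ∈ M := by
    have := M.sub_mem hrM hr1
    rwa [sub_sub_cancel] at this
  exact hM.ne_top ((Ideal.eq_top_iff_one M).2 h1M)

end ring

section dual

variable {F R S : Type*} [Field F] [CommRing R] [CommRing S] [Algebra R S] [Algebra F R]
  [Algebra F S] [IsScalarTower F R S] [FiniteDimensional F R] [Module.Finite R S]

theorem finrank_span_le (m : ℕ) (y : S) :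
    Module.finrank F ((Submodule.span R ((fun i : ℕ => y ^ i) '' Set.Iio m)).restrictScalars F) ≤
      m * Module.finrank F R := by
  classical
  let f : (Fin m → R) →ₗ[R] S := Fintype.linearCombination R (fun i : Fin m => y ^ (i : ℕ))
  have h1 : Submodule.span R ((fun i : ℕ => y ^ i) '' Set.Iio m) ≤ LinearMap.range f := by
    rw [Submodule.span_le]
    rintro _ ⟨i, hi, rfl⟩
    refine ⟨Pi.single ⟨i, hi⟩ 1, ?_⟩
    simp only [f]
    rw [Fintype.linearCombination_apply_single, one_smul]
  have hfd : FiniteDimensional F S := Module.Finite.trans R S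
  have h2 : (Submodule.span R ((fun i : ℕ => y ^ i) '' Set.Iio m)).restrictScalars F ≤
      LinearMap.range (f.restrictScalars F) := fun x hx => h1 hx
  refine (Submodule.finrank_mono h2).trans ((LinearMap.finrank_range_le _).trans ?_)
  rw [Module.finrank_pi_fintype]
  simp

theorem exists_word (y : S) (n j : ℕ) (hy : y ^ n = 0)
    (hspan : ∀ s : S, ∃ σ : ℕ → R, s = ∑ l ∈ range n, σ l • y ^ l) (L : S →ₗ[R] R)
    (hLj : ∀ w, L (y ^ j * w) = 0) (C : Submodule F (Module.Dual F S))
    (hC : ∀ s : S, ∀ c ∈ C, c ∘ₗ (LinearMap.mulLeft F s) ∈ C)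
    (hdim : (j - 1) * Module.finrank F R < Module.finrank F C) :
    ∃ φ : Module.Dual F R, φ ≠ 0 ∧ φ ∘ₗ (L.restrictScalars F) ∈ C := by
  classical
  have hfd : FiniteDimensional F S := Module.Finite.trans R S
  set D : Submodule F S := C.dualCoannihilator with hD
  by_cases hT : D.map (L.restrictScalars F) = ⊤
  · exfalso
    have h1 : (1 : R) ∈ D.map (L.restrictScalars F) := by
      rw [hT]
      exact Submodule.mem_top
    obtain ⟨s, hs, hLs⟩ := h1
    have hLs' : L s = 1 := hLs
    have h2 := span_top (R := R) y s n j hy hspan L hLs' hLj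
    have h3 : ((Ideal.span {s}).restrictScalars F : Submodule F S) ≤ D := by
      intro x hx
      obtain ⟨w, rfl⟩ := Ideal.mem_span_singleton'.1 hx
      rw [hD, Submodule.mem_dualCoannihilator]
      intro c hc
      exact (Submodule.mem_dualCoannihilator _).1 hs _ (hC w c hc)
    have h4 : (⊤ : Submodule F S) ≤
        (Submodule.span R ((fun i : ℕ => y ^ i) '' Set.Iio (j - 1))).restrictScalars F ⊔ D := by
      intro x _
      have h5 : x ∈ Submodule.span R ((fun i : ℕ => y ^ i) '' Set.Iio (j - 1)) ⊔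
          (Ideal.span {s}).restrictScalars R := by
        rw [h2]
        exact Submodule.mem_top
      obtain ⟨u, hu, v, hv, huv⟩ := Submodule.mem_sup.1 h5
      rw [← huv]
      exact add_mem (Submodule.mem_sup_left hu) (Submodule.mem_sup_right (h3 hv))
    have h6 := (Submodule.finrank_mono h4).trans (Submodule.finrank_add_le_finrank_add_finrank _ _)
    rw [finrank_top] at h6
    have h7 : Module.finrank F C + Module.finrank F D = Module.finrank F S :=
      Subspace.finrank_add_finrank_dualCoannihilator_eq C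
    have h8 := finrank_span_le (F := F) (R := R) (j - 1) y
    omega
  · obtain ⟨φ, hφ, hle⟩ := Submodule.exists_le_ker_of_lt_top _ (lt_top_iff_ne_top.2 hT)
    refine ⟨φ, hφ, ?_⟩
    have h1 : φ ∘ₗ (L.restrictScalars F) ∈ D.dualAnnihilator := by
      rw [Submodule.mem_dualAnnihilator]
      intro w hw
      exact hle (Submodule.mem_map_of_mem hw)
    rwa [hD, Subspace.dualCoannihilator_dualAnnihilator_eq] at h1

end dual

end Pool.Agent.H144.Rep
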