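import Mathlib
import Pool.Agent.H144.RepRoot

set_option autoImplicit false

namespace Pool.Agent.H144.Rep

open Finset

section alg

variable {F R G : Type*} [Field F] [CommRing R] [Algebra F R] [CommGroup G] [Fintype G]

theorem hspan_of (t : G) (ht : ∀ g : G, ∃ i : ℕ, t ^ i = g) (n : ℕ)
    (hy : (MonoidAlgebra.single t (1 : R) - 1) ^ n = (0 : MonoidAlgebra R G))
    (s : MonoidAlgebra R G) :
    ∃ σ : ℕ → R, s = ∑ l ∈ range n, σ l • (MonoidAlgebra.single t (1 : R) - 1) ^ l := by
  classical
  set y : MonoidAlgebra R G := MonoidAlgebra.single t (1 : R) - 1 with hydef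
  let N : Submodule R (MonoidAlgebra R G) :=
    { carrier := {s | ∃ σ : ℕ → R, s = ∑ l ∈ range n, σ l • y ^ l}
      add_mem' := by
        rintro _ _ ⟨σ, rfl⟩ ⟨τ, rfl⟩
        refine ⟨σ + τ, ?_⟩
        rw [← sum_add_distrib]
        exact sum_congr rfl fun l _ => by rw [Pi.add_apply, add_smul]
      zero_mem' := ⟨0, by simp⟩
      smul_mem' := by
        rintro r _ ⟨σ, rfl⟩
        refine ⟨fun l => r * σ l, ?_⟩
        rw [smul_sum]
        exact sum_congr rfl fun l _ => by rw [mul_smul] }
  have hpow : ∀ l, y ^ l ∈ N := by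
    intro l
    by_cases hl : l < n
    · refine ⟨Pi.single l 1, ?_⟩
      rw [sum_eq_single l]
      · simp
      · intro b _ hb
        rw [Pi.single_eq_of_ne hb, zero_smul]
      · intro h
        exact absurd (mem_range.2 hl) h
    · have h1 : y ^ l = y ^ (l - n) * y ^ n := by
        rw [← pow_add]
        congr 1
        omega
      rw [h1, hy, mul_zero]
      exact N.zero_mem
  have hsing : ∀ i : ℕ, (MonoidAlgebra.single (t ^ i) (1 : R) : MonoidAlgebra R G) ∈ N := by
    intro i
    have h1 : (MonoidAlgebra.single (t ^ i) (1 : R) : MonoidAlgebra R G) = (y + 1) ^ i := by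
      rw [hydef, sub_add_cancel, MonoidAlgebra.single_pow, one_pow]
    rw [h1, add_pow]
    refine sum_mem fun l _ => ?_
    rw [one_pow, mul_one, ← nsmul_eq_mul']
    exact N.nsmul_mem (hpow l) _
  have hall : s ∈ N := by
    induction s using MonoidAlgebra.induction_linear with
    | zero => exact N.zero_mem
    | add x z hx hz => exact N.add_mem hx hz
    | single g r =>
      obtain ⟨i, rfl⟩ := ht g
      have h1 : (MonoidAlgebra.single (t ^ i) r : MonoidAlgebra R G) =
          r • MonoidAlgebra.single (t ^ i) (1 : R) := by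
        rw [MonoidAlgebra.smul_single, smul_eq_mul, mul_one]
      rw [h1]
      exact N.smul_mem _ (hsing i)
  exact hall

/-- The functional with values in `R` given by a word `b`. -/
noncomputable def Lb (R : Type*) [CommRing R] [Algebra F R] (b : G → F) :
    MonoidAlgebra R G →ₗ[R] R :=
  (MonoidAlgebra.basis G R).constr R (fun g => algebraMap F R (b g))

theorem Lb_single (b : G → F) (g : G) (r : R) :
    Lb R b (MonoidAlgebra.single g r) = r * algebraMap F R (b g) := by
  have h1 : (MonoidAlgebra.single g r : MonoidAlgebra R G) =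
      r • MonoidAlgebra.single g (1 : R) := by
    rw [MonoidAlgebra.smul_single, smul_eq_mul, mul_one]
  rw [h1, map_smul, smul_eq_mul, ← MonoidAlgebra.basis_apply, Lb, Module.Basis.constr_basis]

/-- The difference operator. -/
noncomputable def Y (F : Type*) [Field F] (t : G) : Module.End F (G → F) :=
  LinearMap.funLeft F F (fun x => t * x) - 1

theorem Lb_mul_y (t : G) (b : G → F) (w : MonoidAlgebra R G) :
    Lb R b ((MonoidAlgebra.single t (1 : R) - 1) * w) = Lb R (Y F t b) w := by
  induction w using MonoidAlgebra.induction_linear with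
  | zero => simp
  | add x z hx hz => rw [mul_add, map_add, map_add, hx, hz]
  | single g r =>
    rw [sub_mul, one_mul, MonoidAlgebra.single_mul_single, one_mul, map_sub, Lb_single, Lb_single,
      Lb_single, ← mul_sub, ← map_sub]
    rfl

theorem Lb_mul_pow (t : G) (j : ℕ) (b : G → F) (w : MonoidAlgebra R G) :
    Lb R b ((MonoidAlgebra.single t (1 : R) - 1) ^ j * w) = Lb R ((Y F t ^ j) b) w := by
  induction j generalizing b with
  | zero => simp
  | succ j ih =>
    rw [pow_succ', mul_assoc, Lb_mul_y, ih, pow_succ]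
    rfl

theorem Y_pow (p k : ℕ) [Fact p.Prime] [CharP F p] (t : G) (ht : t ^ (p ^ k) = 1) :
    Y F t ^ (p ^ k) = 0 := by
  have : CharP (Module.End F (G → F)) p := by
    refine charP_of_injective_algebraMap (algebraMap F (Module.End F (G → F))).injective p
  rw [Y, sub_pow_char_pow_of_commute _ _ (Commute.one_right _), one_pow, sub_eq_zero]
  have h1 : ∀ (m : ℕ) (f : G → F), ((LinearMap.funLeft F F (fun x => t * x)) ^ m) f =
      fun x => f (t ^ m * x) := by
    intro m
    induction m with
    | zero =>
      intro f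
      funext x
      simp
    | succ m ih =>
      intro f
      rw [pow_succ', Module.End.mul_apply, ih]
      funext x
      show f (t ^ m * (t * x)) = f (t ^ (m + 1) * x)
      rw [← mul_assoc, ← pow_succ]
  refine LinearMap.ext fun f => ?_
  rw [h1, ht]
  funext x
  simp

theorem Y_pow_finrank (p k : ℕ) [Fact p.Prime] [CharP F p] (t : G) (ht : t ^ (p ^ k) = 1)
    (B : Submodule F (G → F)) (hB : ∀ c ∈ B, (fun x => c (t * x)) ∈ B) (b : G → F) (hb : b ∈ B) :
    (Y F t ^ (Module.finrank F B)) b = 0 := by
  have hmaps : ∀ c ∈ B, Y F t c ∈ B := fun c hc => B.sub_mem (hB c hc) hc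
  set φ : Module.End F B := (Y F t).restrict hmaps with hφ
  have hcoe : ∀ (m : ℕ) (c : B), (((φ ^ m) c : B) : G → F) = (Y F t ^ m) (c : G → F) := by
    intro m
    induction m with
    | zero =>
      intro c
      simp
    | succ m ih =>
      intro c
      rw [pow_succ, pow_succ, Module.End.mul_apply, Module.End.mul_apply, ih]
      rfl
  have hnil : IsNilpotent φ := by
    refine ⟨p ^ k, ?_⟩
    ext c : 2
    rw [hcoe, Y_pow p k t ht]
    rfl
  have h1 := IsNilpotent.charpoly_eq_X_pow_finrank hnil
  have h2 := LinearMap.aeval_self_charpoly φ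
  rw [h1, map_pow, Polynomial.aeval_X] at h2
  have h3 := hcoe (Module.finrank F B) ⟨b, hb⟩
  rw [h2] at h3
  exact h3.symm

end alg

end Pool.Agent.H144.Rep
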