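import Mathlib
import Pool.Agent.H144.RepRoot2

set_option autoImplicit false

namespace Pool.Agent.H144.Rep

open Finset

variable {F G N : Type} [Field F] [DecidableEq F] [CommGroup G] [Fintype G] [CommGroup N] [Fintype N]

/-- The basis of the group algebra of `N × G` over `F`. -/
noncomputable def bas (F G N : Type) [Field F] [CommGroup G] [CommGroup N] :
    Module.Basis (N × G) F (MonoidAlgebra (MonoidAlgebra F N) G) :=
  (MonoidAlgebra.basis N F).smulTower (MonoidAlgebra.basis G (MonoidAlgebra F N))

omit [DecidableEq F] [Fintype G] [Fintype N] in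
theorem bas_apply (x : N) (g : G) :
    bas F G N (x, g) = MonoidAlgebra.single g (MonoidAlgebra.single x (1 : F)) := by
  rw [bas, Module.Basis.smulTower_apply, MonoidAlgebra.basis_apply, MonoidAlgebra.basis_apply,
    MonoidAlgebra.smul_single, smul_eq_mul, mul_one]

omit [DecidableEq F] [Fintype G] [Fintype N] in
theorem bas_mul (x x' : N) (g g' : G) :
    bas F G N (x, g) * bas F G N (x', g') = bas F G N (x * x', g * g') := by
  rw [bas_apply, bas_apply, bas_apply, MonoidAlgebra.single_mul_single,
    MonoidAlgebra.single_mul_single, one_mul]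

/-- **Comparison with cyclic codes.** -/
theorem regular (p k : ℕ) [Fact p.Prime] [CharP F p] (t : G) (ht : ∀ g : G, ∃ i : ℕ, t ^ i = g)
    (htk : t ^ (p ^ k) = 1) (B : Submodule F (G → F)) (hB : ∀ c ∈ B, (fun x => c (t * x)) ∈ B)
    (b : G → F) (hb : b ∈ B) (hb0 : b ≠ 0) (C : Submodule F (N × G → F))
    (hC : ∀ a : N × G, ∀ c ∈ C, (fun x => c (a * x)) ∈ C)
    (hdim : (Module.finrank F B - 1) * Nat.card N < Module.finrank F C) :
    ∃ c ∈ C, c ≠ 0 ∧ hammingNorm c ≤ hammingNorm b * Nat.card N := by
  classical
  set R := MonoidAlgebra F N with hR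
  set S := MonoidAlgebra R G with hS
  have hfdR : FiniteDimensional F R := Module.Finite.of_basis (MonoidAlgebra.basis N F)
  have hfdS : Module.Finite R S := Module.Finite.of_basis (MonoidAlgebra.basis G R)
  have hcardR : Module.finrank F R = Nat.card N := by
    rw [Module.finrank_eq_card_basis (MonoidAlgebra.basis N F), Nat.card_eq_fintype_card]
  let E : (N × G → F) ≃ₗ[F] (S →ₗ[F] F) := (bas F G N).constr F
  have hE : ∀ c x g, E c (bas F G N (x, g)) = c (x, g) := by
    intro c x g
    exact Module.Basis.constr_basis _ _ _ _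
  set y : S := MonoidAlgebra.single t (1 : R) - 1 with hy
  have hcharS : CharP S p := charP_of_injective_algebraMap (algebraMap F S).injective p
  have hyn : y ^ (p ^ k) = 0 := by
    rw [hy, sub_pow_char_pow, MonoidAlgebra.single_pow, htk, one_pow, one_pow, sub_eq_zero]
    rfl
  obtain ⟨φ, hφ, hφC⟩ := exists_word (F := F) (R := R) (S := S) y (p ^ k) (Module.finrank F B) hyn
    (hspan_of t ht (p ^ k) hyn) (Lb R b)
    (by
      intro w
      rw [hy, Lb_mul_pow, Y_pow_finrank p k t htk B hB b hb]
      rw [Lb]
      simp)
    (C.map (E : (N × G → F) →ₗ[F] _))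
    (by
      intro s c' hc'
      obtain ⟨c, hc, rfl⟩ := hc'
      have hs : s ∈ Submodule.span F (Set.range (bas F G N)) := by
        rw [Module.Basis.span_eq]
        exact Submodule.mem_top
      induction hs using Submodule.span_induction with
      | mem s hs =>
        obtain ⟨⟨x, g⟩, rfl⟩ := hs
        refine ⟨_, hC (x, g) c hc, ?_⟩
        refine (bas F G N).ext ?_
        rintro ⟨x', g'⟩
        show E _ _ = E c (bas F G N (x, g) * bas F G N (x', g'))
        rw [hE, bas_mul, hE]
        rfl
      | zero =>
        have h1 : LinearMap.mulLeft F (0 : S) = 0 := by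
          ext
          simp
        rw [h1, LinearMap.comp_zero]
        exact Submodule.zero_mem _
      | add s s' _ _ h h' =>
        have h1 : LinearMap.mulLeft F (s + s') = LinearMap.mulLeft F s + LinearMap.mulLeft F s' := by
          refine LinearMap.ext fun w => ?_
          simp [add_mul]
        rw [h1, LinearMap.comp_add]
        exact Submodule.add_mem _ h h'
      | smul a s _ h =>
        have h1 : LinearMap.mulLeft F (a • s) = a • LinearMap.mulLeft F s := by
          refine LinearMap.ext fun w => ?_
          simp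
        rw [h1, LinearMap.comp_smul]
        exact Submodule.smul_mem _ _ h)
    (by rw [hcardR, LinearEquiv.finrank_map_eq]; exact hdim)
  obtain ⟨c, hc, hcE⟩ := hφC
  have hval : ∀ x g, c (x, g) = b g * φ (MonoidAlgebra.single x (1 : F)) := by
    intro x g
    rw [← hE c x g]
    have h1 : E c = φ ∘ₗ (Lb R b).restrictScalars F := hcE
    rw [h1]
    show φ (Lb R b (bas F G N (x, g))) = _
    rw [bas_apply, Lb_single, mul_comm, ← Algebra.smul_def, map_smul, smul_eq_mul]
  refine ⟨c, hc, ?_, ?_⟩
  · obtain ⟨g, hg⟩ := Function.ne_iff.1 hb0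
    have hx : ∃ x : N, φ (MonoidAlgebra.single x (1 : F)) ≠ 0 := by
      by_contra hcon
      push Not at hcon
      apply hφ
      refine (MonoidAlgebra.basis N F).ext fun x => ?_
      rw [MonoidAlgebra.basis_apply, hcon, LinearMap.zero_apply]
    obtain ⟨x, hx⟩ := hx
    intro h0
    have h1 := hval x g
    rw [h0] at h1
    exact mul_ne_zero hg hx h1.symm
  · have h1 : (univ.filter fun z : N × G => c z ≠ 0) ⊆
        (univ : Finset N) ×ˢ (univ.filter fun g : G => b g ≠ 0) := by
      rintro ⟨x, g⟩ hz
      rw [mem_filter] at hz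
      rw [mem_product, mem_filter]
      refine ⟨mem_univ _, mem_univ _, ?_⟩
      intro h0
      apply hz.2
      have h2 := hval x g
      rw [show b g = 0 from h0, zero_mul] at h2
      exact h2
    have h2 := card_le_card h1
    rw [card_product, card_univ, ← Nat.card_eq_fintype_card, mul_comm] at h2
    exact h2

end Pool.Agent.H144.Rep
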