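import Mathlib
import Pool.Agent.H144.RepRoot3

set_option autoImplicit false

namespace Pool.Agent.H144.Rep

open Finset

noncomputable section

theorem pow_dvd_lcm {p k a b : ℕ} (hp : p.Prime) (h : p ^ k ∣ Nat.lcm a b) :
    p ^ k ∣ a ∨ p ^ k ∣ b := by
  by_cases ha : a = 0
  · left
    rw [ha]
    exact dvd_zero _
  by_cases hb : b = 0
  · right
    rw [hb]
    exact dvd_zero _
  rw [hp.pow_dvd_iff_le_factorization (Nat.lcm_ne_zero ha hb), Nat.factorization_lcm ha hb,
    Finsupp.sup_apply, le_sup_iff] at h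
  rcases h with h | h
  · left
    exact (hp.pow_dvd_iff_le_factorization ha).2 h
  · right
    exact (hp.pow_dvd_iff_le_factorization hb).2 h

theorem pow_dvd_finset_lcm {ι : Type} (s : Finset ι) (f : ι → ℕ) {p k : ℕ} (hp : p.Prime)
    (hk : k ≠ 0) (h : p ^ k ∣ s.lcm f) : ∃ i ∈ s, p ^ k ∣ f i := by
  classical
  induction s using Finset.induction_on with
  | empty =>
    rw [Finset.lcm_empty] at h
    exact absurd (Nat.dvd_one.1 h) (Nat.one_lt_pow hk hp.one_lt).ne'
  | insert a s ha ih =>
    rw [Finset.lcm_insert] at h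
    rcases pow_dvd_lcm hp h with h | h
    · exact ⟨a, mem_insert_self _ _, h⟩
    · obtain ⟨i, hi, hi'⟩ := ih h
      exact ⟨i, mem_insert_of_mem hi, hi'⟩

theorem exists_split (A : Type) [CommGroup A] [Finite A] (p k : ℕ) (hp : p.Prime)
    (h : p ^ k ∣ Monoid.exponent A) :
    ∃ (k' : ℕ) (N : Type) (_ : CommGroup N) (_ : Fintype N), k ≤ k' ∧
      Nonempty (A ≃* N × Multiplicative (ZMod (p ^ k'))) := by
  classical
  by_cases hk : k = 0
  · subst hk
    have : Fintype A := Fintype.ofFinite A
    refine ⟨0, A, inferInstance, inferInstance, le_rfl, ⟨?_⟩⟩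
    have : Unique (Multiplicative (ZMod (p ^ 0))) := by
      rw [pow_zero]
      exact inferInstanceAs (Unique (ZMod 1))
    exact (MulEquiv.prodUnique (M := A) (N := Multiplicative (ZMod (p ^ 0)))).symm
  obtain ⟨ι, hι, q, hq, e, ⟨E⟩⟩ := AddCommGroup.equiv_directSum_zmod_of_finite (Additive A)
  have : Fintype ι := hι
  let E' : Additive A ≃+ ∀ i, ZMod (q i ^ e i) := E.trans (DirectSum.addEquivProd _)
  have hexp : Monoid.exponent A = univ.lcm fun i => q i ^ e i := by
    have h1 : AddMonoid.exponent (Additive A) = AddMonoid.exponent (∀ i, ZMod (q i ^ e i)) :=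
      AddMonoid.exponent_eq_of_addEquiv E'
    rw [AddMonoid.exponent_additive] at h1
    rw [h1, AddMonoid.exponent_pi]
    congr 1
    funext i
    simp
  rw [hexp] at h
  obtain ⟨i, -, hi⟩ := pow_dvd_finset_lcm _ _ hp hk h
  have hqp : q i = p := by
    have h1 : p ∣ q i := hp.dvd_of_dvd_pow ((dvd_pow_self p hk).trans hi)
    exact ((Nat.prime_dvd_prime_iff_eq hp (hq i)).1 h1).symm
  have hle : k ≤ e i := by
    rw [hqp] at hi
    exact (Nat.pow_dvd_pow_iff_le_right hp.one_lt).1 hi
  refine ⟨e i, Multiplicative (∀ j : {j // j ≠ i}, ZMod (q j ^ e j)), inferInstance, ?_, hle, ⟨?_⟩⟩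
  · have : ∀ j, NeZero (q j ^ e j) := fun j => ⟨pow_ne_zero _ (hq j).ne_zero⟩
    exact inferInstanceAs (Fintype (∀ j : {j // j ≠ i}, ZMod (q j ^ e j)))
  · rw [← hqp]
    exact
      { toFun := fun a => (Multiplicative.ofAdd (fun j : {j // j ≠ i} => E' (Additive.ofMul a) j),
          Multiplicative.ofAdd (E' (Additive.ofMul a) i))
        invFun := fun z => Additive.toMul (E'.symm ((Equiv.piSplitAt i _).symm
          (Multiplicative.toAdd z.2, Multiplicative.toAdd z.1)))
        left_inv := by
          intro a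
          show Additive.toMul (E'.symm ((Equiv.piSplitAt i _).symm
            ((Equiv.piSplitAt i (fun j => ZMod (q j ^ e j))) (E' (Additive.ofMul a))))) = a
          rw [Equiv.symm_apply_apply, AddEquiv.symm_apply_apply]
          rfl
        right_inv := by
          rintro ⟨x, y⟩
          show (_, _) = _
          rw [ofMul_toMul, AddEquiv.apply_symm_apply]
          have h1 := (Equiv.piSplitAt i (fun j => ZMod (q j ^ e j))).apply_symm_apply
            (Multiplicative.toAdd y, Multiplicative.toAdd x)
          refine Prod.ext ?_ ?_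
          · exact congrArg Prod.snd h1
          · exact congrArg Prod.fst h1
        map_mul' := by
          intro a a'
          show (_, _) = (_, _)
          rw [ofMul_mul, map_add]
          rfl }

end

end Pool.Agent.H144.Rep
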