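import Mathlib
import Pool.Agent.H144.RepMain

set_option autoImplicit false

namespace Pool.Agent.H144.Rep

open Finset

/-- the fibres of a surjective homomorphism `ZMod (m * n) → ZMod n`. -/
theorem norm_pull (F : Type) [Field F] [DecidableEq F] (m n : ℕ) [NeZero n] [NeZero m]
    (hmn : n ∣ m) (f : ZMod n → F) :
    hammingNorm (fun x : ZMod m => f (ZMod.castHom hmn (ZMod n) x)) * n = hammingNorm f * m := by
  classical
  set φ := ZMod.castHom hmn (ZMod n) with hφ
  have hsurj : Function.Surjective φ := ZMod.castHom_surjective hmn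
  -- all fibres have the size of the kernel
  have hfib : ∀ y : ZMod n, (univ.filter fun x : ZMod m => φ x = y).card =
      (univ.filter fun x : ZMod m => φ x = 0).card := by
    intro y
    obtain ⟨x₀, hx₀⟩ := hsurj y
    refine card_bij' (fun x _ => x - x₀) (fun x _ => x + x₀) ?_ ?_ ?_ ?_
    · intro x hx
      rw [mem_filter] at hx ⊢
      refine ⟨mem_univ _, ?_⟩
      rw [map_sub, hx.2, hx₀, sub_self]
    · intro x hx
      rw [mem_filter] at hx ⊢
      refine ⟨mem_univ _, ?_⟩
      rw [map_add, hx.2, hx₀, zero_add]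
    · intro x _
      exact sub_add_cancel _ _
    · intro x _
      exact add_sub_cancel_right _ _
  set c := (univ.filter fun x : ZMod m => φ x = 0).card with hc
  have h1 : m = n * c := by
    have h2 : (univ : Finset (ZMod m)).card = ∑ y : ZMod n, (univ.filter fun x => φ x = y).card :=
      card_eq_sum_card_fiberwise fun _ _ => mem_coe.2 (mem_univ _)
    rw [sum_congr rfl fun y _ => hfib y, sum_const, card_univ, card_univ, ZMod.card, ZMod.card,
      smul_eq_mul] at h2
    exact h2
  have h3 : hammingNorm (fun x : ZMod m => f (φ x)) = hammingNorm f * c := by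
    have h4 : (univ.filter fun x : ZMod m => f (φ x) ≠ 0).card =
        ∑ y ∈ univ.filter (fun y : ZMod n => f y ≠ 0),
          ((univ.filter fun x : ZMod m => f (φ x) ≠ 0).filter fun x => φ x = y).card := by
      refine card_eq_sum_card_fiberwise ?_
      intro x hx
      rw [mem_coe, mem_filter] at hx ⊢
      exact ⟨mem_univ _, hx.2⟩
    have h5 : ∀ y ∈ univ.filter (fun y : ZMod n => f y ≠ 0),
        ((univ.filter fun x : ZMod m => f (φ x) ≠ 0).filter fun x => φ x = y).card = c := by
      intro y hy
      rw [mem_filter] at hy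
      rw [← hfib y, filter_filter]
      congr 1
      refine filter_congr fun x _ => ?_
      constructor
      · exact fun h => h.2
      · intro h
        rw [h]
        exact ⟨hy.2, rfl⟩
    rw [sum_congr rfl h5, sum_const, smul_eq_mul] at h4
    exact h4
  rw [h3]
  conv_rhs => rw [h1]
  ring

section main

variable {F : Type} [Field F] [DecidableEq F]

/-- **Comparison with cyclic codes** of length `p ^ k`, where `p ^ k` divides the exponent. -/
theorem compare (p k : ℕ) [Fact p.Prime] [CharP F p] (A Ω : Type) [CommGroup A] [Fintype Ω]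
    [MulAction A Ω] [FaithfulSMul A Ω] [MulAction.IsPretransitive A Ω]
    (hk : p ^ k ∣ Monoid.exponent A) (C : Submodule F (Ω → F))
    (hC : ∀ a : A, ∀ f ∈ C, (fun ω => f (a • ω)) ∈ C)
    (B : Submodule F (ZMod (p ^ k) → F)) (hB : ∀ a, ∀ f ∈ B, (fun x => f (a + x)) ∈ B)
    (hdim : Module.finrank F B * Fintype.card Ω < Module.finrank F C * p ^ k + Fintype.card Ω)
    (b : ZMod (p ^ k) → F) (hb : b ∈ B) (hb0 : b ≠ 0) :
    ∃ c ∈ C, c ≠ 0 ∧ hammingNorm c * p ^ k ≤ hammingNorm b * Fintype.card Ω := by
  classical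
  have hp : p.Prime := Fact.out
  have : NeZero (p ^ k) := ⟨pow_ne_zero _ hp.ne_zero⟩
  rcases isEmpty_or_nonempty Ω with hΩ | ⟨⟨x₀⟩⟩
  · exfalso
    have h1 : Fintype.card Ω = 0 := Fintype.card_eq_zero
    have h2 : Module.finrank F C ≤ 0 := by
      refine (Submodule.finrank_le _).trans ?_
      rw [Module.finrank_fintype_fun_eq_card, h1]
    rw [h1, Nat.le_zero.1 h2] at hdim
    simp at hdim
  have hbij : Function.Bijective fun g : A => g • x₀ := by
    constructor
    · intro g h hgh
      apply FaithfulSMul.eq_of_smul_eq_smul (α := Ω)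
      intro y
      obtain ⟨σ, rfl⟩ := MulAction.exists_smul_eq A x₀ y
      rw [smul_comm g σ x₀, smul_comm h σ x₀]
      exact congrArg (σ • ·) hgh
    · intro y
      exact MulAction.exists_smul_eq A x₀ y
  let e : A ≃ Ω := Equiv.ofBijective _ hbij
  have : Finite A := Finite.of_equiv _ e.symm
  obtain ⟨k', N, _, _, hkk', ⟨E⟩⟩ := exists_split A p k hp hk
  have : NeZero (p ^ k') := ⟨pow_ne_zero _ hp.ne_zero⟩
  letI hfin : Fintype (Multiplicative (ZMod (p ^ k'))) := ZMod.fintype (p ^ k')
  have hcard : Fintype.card Ω = Nat.card N * p ^ k' := by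
    rw [← Nat.card_eq_fintype_card, Nat.card_congr (e.symm.trans E.toEquiv), Nat.card_prod]
    congr 1
    rw [Nat.card_congr (Multiplicative.toAdd (α := ZMod (p ^ k'))), Nat.card_zmod]
  have hdvd : p ^ k ∣ p ^ k' := pow_dvd_pow _ hkk'
  -- the cyclic code of length `p ^ k'`
  let P : (ZMod (p ^ k) → F) →ₗ[F] (Multiplicative (ZMod (p ^ k')) → F) :=
    LinearMap.funLeft F F (fun x => ZMod.castHom hdvd (ZMod (p ^ k)) (Multiplicative.toAdd x))
  -- the code on `N × G`
  let Q : (Ω → F) ≃ₗ[F] (N × Multiplicative (ZMod (p ^ k')) → F) :=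
    LinearEquiv.funCongrLeft F F (E.symm.toEquiv.trans e)
  have hQ : ∀ c z, Q c z = c (E.symm z • x₀) := fun _ _ => rfl
  obtain ⟨c', hc', hc0, hcw⟩ := regular (F := F) p k' (Multiplicative.ofAdd (1 : ZMod (p ^ k')))
    (by
      intro g
      refine ⟨(Multiplicative.toAdd g).val, ?_⟩
      rw [← ofAdd_nsmul]
      simp)
    (by
      rw [← ofAdd_nsmul]
      simp)
    (B.map P)
    (by
      rintro _ ⟨c, hc, rfl⟩
      refine ⟨_, hB 1 c hc, ?_⟩
      funext x
      show c (1 + ZMod.castHom hdvd (ZMod (p ^ k)) (Multiplicative.toAdd x)) =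
        c (ZMod.castHom hdvd (ZMod (p ^ k)) (Multiplicative.toAdd (Multiplicative.ofAdd 1 * x)))
      rw [toAdd_mul, toAdd_ofAdd, map_add, map_one])
    (P b) ⟨b, hb, rfl⟩
    (by
      intro h0
      apply hb0
      funext x
      obtain ⟨x', rfl⟩ := ZMod.castHom_surjective hdvd x
      exact congrFun h0 (Multiplicative.ofAdd x'))
    (C.map (Q : (Ω → F) →ₗ[F] (N × Multiplicative (ZMod (p ^ k')) → F)))
    (by
      rintro a _ ⟨c, hc, rfl⟩
      refine ⟨fun ω => c (E.symm a • ω), hC (E.symm a) c hc, ?_⟩
      funext z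
      show c (E.symm a • E.symm z • x₀) = c (E.symm (a * z) • x₀)
      rw [map_mul, mul_smul])
    (by
      rw [LinearEquiv.finrank_map_eq]
      have h1 : Module.finrank F (B.map P) ≤ Module.finrank F B := Submodule.finrank_map_le _ _
      have hN : 0 < Nat.card N := Nat.card_pos
      have hpk : 0 < p ^ k := pow_pos hp.pos _
      have hpk' : p ^ k ≤ p ^ k' := Nat.pow_le_pow_right hp.pos hkk'
      have hpos : 0 < p ^ k' := pow_pos hp.pos _
      -- `(dim B - 1) |N| < dim C`
      by_contra hcon
      push Not at hcon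
      have h2 : Module.finrank F C * p ^ k' ≤ (Module.finrank F (B.map P) - 1) * Fintype.card Ω := by
        rw [hcard, ← mul_assoc]
        exact Nat.mul_le_mul_right _ hcon
      have h3 : Module.finrank F C * p ^ k ≤ (Module.finrank F B - 1) * Fintype.card Ω :=
        ((Nat.mul_le_mul_left _ hpk').trans h2).trans (Nat.mul_le_mul_right _ (by omega))
      have h4 : Module.finrank F C * p ^ k + Fintype.card Ω ≤
          Module.finrank F B * Fintype.card Ω := by
        rcases Nat.eq_zero_or_pos (Module.finrank F B) with h0 | h0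
        · exfalso
          have hB0 : B = ⊥ := Submodule.finrank_eq_zero.1 h0
          rw [hB0, Submodule.mem_bot] at hb
          exact hb0 hb
        · obtain ⟨r, hr⟩ : ∃ r, Module.finrank F B = r + 1 := ⟨Module.finrank F B - 1, by omega⟩
          rw [hr, Nat.add_sub_cancel] at h3
          rw [hr, add_mul, one_mul]
          omega
      omega)
  obtain ⟨c, hc, rfl⟩ := hc'
  refine ⟨c, hc, ?_, ?_⟩
  · rintro rfl
    exact hc0 (map_zero _)
  · have h1 : hammingNorm (Q c) = hammingNorm c := by
      have h2 : hammingNorm c = Nat.card {x : Ω // c x ≠ 0} := by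
        rw [Nat.card_eq_fintype_card, Fintype.card_subtype]
        rfl
      have h3 : hammingNorm (Q c) =
          Nat.card {z : N × Multiplicative (ZMod (p ^ k')) // Q c z ≠ 0} := by
        rw [Nat.card_eq_fintype_card, Fintype.card_subtype]
        rfl
      rw [h2, h3]
      exact Nat.card_congr ((E.symm.toEquiv.trans e).subtypeEquiv fun z => Iff.rfl)
    have h4 : hammingNorm (P b) * p ^ k = hammingNorm b * p ^ k' := norm_pull F (p ^ k') (p ^ k) hdvd b
    have h5 : hammingNorm (Q c) ≤ hammingNorm (P b) * Nat.card N := hcw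
    rw [h1] at h5
    rw [hcard]
    calc hammingNorm c * p ^ k ≤ hammingNorm (P b) * Nat.card N * p ^ k := Nat.mul_le_mul_right _ h5
      _ = (hammingNorm (P b) * p ^ k) * Nat.card N := by ring
      _ = hammingNorm b * (Nat.card N * p ^ k') := by rw [h4]; ring

/-- **Rate times distance** -/
theorem product (p k : ℕ) [Fact p.Prime] [CharP F p] (A Ω : Type) [CommGroup A] [Fintype Ω]
    [MulAction A Ω] [FaithfulSMul A Ω] [MulAction.IsPretransitive A Ω]
    (hk : p ^ k ∣ Monoid.exponent A) (C : Submodule F (Ω → F))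
    (hC : ∀ a : A, ∀ f ∈ C, (fun ω => f (a • ω)) ∈ C) (d : ℕ)
    (hd : ∀ f ∈ C, f ≠ 0 → d ≤ hammingNorm f) :
    Module.finrank F C * d * p ^ k ≤ p * Fintype.card Ω ^ 2 := by
  classical
  have hp : p.Prime := Fact.out
  have : NeZero (p ^ k) := ⟨pow_ne_zero _ hp.ne_zero⟩
  by_cases hC0 : Module.finrank F C = 0
  · rw [hC0]
    simp
  have hfin_le : Module.finrank F C ≤ Fintype.card Ω := by
    refine (Submodule.finrank_le _).trans ?_
    rw [Module.finrank_fintype_fun_eq_card]
  -- the least `j` with `|Ω| ≤ dim C * p ^ j`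
  have hex : ∃ j, Fintype.card Ω ≤ Module.finrank F C * p ^ j := by
    refine ⟨Fintype.card Ω, ?_⟩
    calc Fintype.card Ω ≤ p ^ Fintype.card Ω := (Nat.lt_pow_self hp.one_lt).le
      _ ≤ Module.finrank F C * p ^ Fintype.card Ω := Nat.le_mul_of_pos_left _ (Nat.pos_of_ne_zero hC0)
  obtain ⟨j, hj, hmin⟩ : ∃ j, Fintype.card Ω ≤ Module.finrank F C * p ^ j ∧
      ∀ i < j, Module.finrank F C * p ^ i < Fintype.card Ω := by
    refine ⟨Nat.find hex, Nat.find_spec hex, fun i hi => ?_⟩
    exact not_le.1 (Nat.find_min hex hi)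
  have hkey : Module.finrank F C * p ^ j ≤ p * Fintype.card Ω := by
    rcases Nat.eq_zero_or_pos j with h0 | h0
    · subst h0
      rw [pow_zero, mul_one]
      exact hfin_le.trans (Nat.le_mul_of_pos_left _ hp.pos)
    · obtain ⟨i, rfl⟩ : ∃ i, j = i + 1 := ⟨j - 1, by omega⟩
      have h1 := hmin i (Nat.lt_succ_self i)
      calc Module.finrank F C * p ^ (i + 1) = p * (Module.finrank F C * p ^ i) := by ring
        _ ≤ p * Fintype.card Ω := Nat.mul_le_mul_left _ h1.le
  by_cases hjk : j ≤ k
  · -- the indicator of the subgroup of order `p ^ j`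
    have hdvd : p ^ (k - j) ∣ p ^ k := pow_dvd_pow _ (Nat.sub_le k j)
    have : NeZero (p ^ (k - j)) := ⟨pow_ne_zero _ hp.ne_zero⟩
    let P : (ZMod (p ^ (k - j)) → F) →ₗ[F] (ZMod (p ^ k) → F) :=
      LinearMap.funLeft F F (ZMod.castHom hdvd (ZMod (p ^ (k - j))))
    have hdimB : Module.finrank F (LinearMap.range P) ≤ p ^ (k - j) := by
      refine (LinearMap.finrank_range_le _).trans ?_
      rw [Module.finrank_fintype_fun_eq_card, ZMod.card]
    have hΩ : 0 < Fintype.card Ω := lt_of_lt_of_le (Nat.pos_of_ne_zero hC0) hfin_le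
    obtain ⟨c, hc, hc0, hcw⟩ := compare p k A Ω hk C hC (LinearMap.range P)
      (by
        rintro a _ ⟨f, rfl⟩
        refine ⟨fun x => f (ZMod.castHom hdvd (ZMod (p ^ (k - j))) a + x), ?_⟩
        funext x
        show f (ZMod.castHom hdvd (ZMod (p ^ (k - j))) a +
          ZMod.castHom hdvd (ZMod (p ^ (k - j))) x) =
          f (ZMod.castHom hdvd (ZMod (p ^ (k - j))) (a + x))
        rw [map_add])
      (by
        have h1 : Module.finrank F (LinearMap.range P) * Fintype.card Ω ≤
            Module.finrank F C * p ^ k := by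
          calc _ ≤ p ^ (k - j) * (Module.finrank F C * p ^ j) := Nat.mul_le_mul hdimB hj
            _ = Module.finrank F C * (p ^ (k - j) * p ^ j) := by ring
            _ = Module.finrank F C * p ^ k := by rw [← pow_add, Nat.sub_add_cancel hjk]
        omega)
      (P (Pi.single 0 1)) ⟨_, rfl⟩
      (by
        intro h0
        have h1 := congrFun h0 0
        have h2 : P (Pi.single 0 1) 0 = (1 : F) := by
          show (Pi.single 0 1 : ZMod (p ^ (k - j)) → F)
            (ZMod.castHom hdvd (ZMod (p ^ (k - j))) 0) = 1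
          rw [map_zero, Pi.single_eq_same]
        rw [h2] at h1
        exact one_ne_zero h1)
    have h1 : hammingNorm (P (Pi.single 0 1)) = p ^ j := by
      have h2 := norm_pull F (p ^ k) (p ^ (k - j)) hdvd (Pi.single 0 1)
      have h3 : hammingNorm (Pi.single 0 1 : ZMod (p ^ (k - j)) → F) = 1 := by
        unfold hammingNorm
        rw [card_eq_one]
        refine ⟨0, ?_⟩
        ext x
        rw [mem_filter, mem_singleton]
        constructor
        · rintro ⟨-, h⟩
          by_contra hx
          exact h (Pi.single_eq_of_ne hx _)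
        · rintro rfl
          refine ⟨mem_univ _, ?_⟩
          rw [Pi.single_eq_same]
          exact one_ne_zero
      rw [h3, one_mul] at h2
      have h4 : p ^ k = p ^ j * p ^ (k - j) := by
        rw [← pow_add]
        congr 1
        omega
      exact Nat.eq_of_mul_eq_mul_right (pow_pos hp.pos _) (h2.trans h4)
    rw [h1] at hcw
    have h5 := hd c hc hc0
    calc Module.finrank F C * d * p ^ k ≤ Module.finrank F C * (hammingNorm c * p ^ k) := by
          rw [mul_assoc]
          exact Nat.mul_le_mul_left _ (Nat.mul_le_mul_right _ h5)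
      _ ≤ Module.finrank F C * (p ^ j * Fintype.card Ω) := Nat.mul_le_mul_left _ hcw
      _ = (Module.finrank F C * p ^ j) * Fintype.card Ω := by ring
      _ ≤ (p * Fintype.card Ω) * Fintype.card Ω := Nat.mul_le_mul_right _ hkey
      _ = p * Fintype.card Ω ^ 2 := by ring
  · push Not at hjk
    have h1 := hmin k hjk
    have h2 : d ≤ Fintype.card Ω := by
      have h3 : ∃ c ∈ C, c ≠ 0 := by
        by_contra hcon
        push Not at hcon
        apply hC0
        rw [Submodule.finrank_eq_zero, Submodule.eq_bot_iff]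
        exact hcon
      obtain ⟨c, hc, hc0⟩ := h3
      exact (hd c hc hc0).trans (hammingNorm_le_card_fintype)
    calc Module.finrank F C * d * p ^ k = (Module.finrank F C * p ^ k) * d := by ring
      _ ≤ Fintype.card Ω * Fintype.card Ω := Nat.mul_le_mul h1.le h2
      _ = 1 * Fintype.card Ω ^ 2 := by ring
      _ ≤ p * Fintype.card Ω ^ 2 := Nat.mul_le_mul_right _ hp.pos

end main

end Pool.Agent.H144.Rep
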