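import Mathlib
import Pool.Agent.H144.CastFinal
import Pool.Agent.H144.RepFinal

set_option autoImplicit false

namespace Pool.Agent.H144.Ext

open Finset

section red

variable {F : Type} [Field F] [Fintype F] [DecidableEq F]

/-- The code on `G / H` of the words of `C` which are constant on the cosets of `H`. -/
def quo {G : Type} [Group G] (H : Subgroup G) (C : Submodule F (G → F)) :
    Submodule F (G ⧸ H → F) :=
  H70.TP.pull (QuotientGroup.mk (s := H)) C

theorem quo_dim (p : ℕ) [Fact p.Prime] [CharP F p] {G : Type} [Group G] [Fintype G]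
    (H : Subgroup G) [H.Normal] (hH : IsPGroup p H) (C : Submodule F (G → F))
    (hC : ∀ g : G, ∀ f ∈ C, (fun x => f (g * x)) ∈ C) :
    Module.finrank F C ≤ Nat.card H * Module.finrank F (quo H C) := by
  classical
  have : Fintype (G ⧸ H) := Fintype.ofFinite _
  refine H70.TP.quot_dim' (p := p) (G := H) (X := G) hH
    (QuotientGroup.mk (s := H)) ?_ ?_ (Nat.card H) ?_ C (fun g c hc => hC g.1 c hc)
  · intro g x
    show QuotientGroup.mk (g.1 * x) = (QuotientGroup.mk x : G ⧸ H)
    rw [QuotientGroup.eq]
    have h1 := (inferInstance : H.Normal).conj_mem (g.1⁻¹) (H.inv_mem g.2) x⁻¹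
    rw [mul_inv_rev]
    simpa [mul_assoc] using h1
  · intro x x' h
    have h1 := QuotientGroup.eq.1 h
    refine ⟨⟨x' * x⁻¹, ?_⟩, ?_⟩
    · have h2 := (inferInstance : H.Normal).conj_mem _ h1 x
      simpa [mul_assoc] using h2
    · show x' * x⁻¹ * x = x'
      rw [inv_mul_cancel_right]
  · intro z
    induction z using QuotientGroup.induction_on with
    | H z =>
      rw [Nat.card_eq_fintype_card, ← Finset.card_univ]
      refine Finset.card_le_card_of_injOn (fun x => if h : z⁻¹ * x ∈ H then
        ⟨z⁻¹ * x, h⟩ else 1) (fun _ _ => Finset.mem_coe.2 (Finset.mem_univ _)) ?_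
      intro x hx y hy hxy
      have hx' : (QuotientGroup.mk x : G ⧸ H) = QuotientGroup.mk z := by
        simpa using hx
      have hy' : (QuotientGroup.mk y : G ⧸ H) = QuotientGroup.mk z := by
        simpa using hy
      have h1 : z⁻¹ * x ∈ H := QuotientGroup.eq.1 hx'.symm
      have h2 : z⁻¹ * y ∈ H := QuotientGroup.eq.1 hy'.symm
      simp only [h1, h2, dif_pos] at hxy
      have h3 := congrArg Subtype.val hxy
      exact mul_left_cancel h3

omit [Fintype F] in
theorem quo_norm {G : Type} [Group G] [Fintype G] (H : Subgroup G) [Fintype (G ⧸ H)]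
    (f : G ⧸ H → F) :
    hammingNorm (fun x : G => f (QuotientGroup.mk x)) = Nat.card H * hammingNorm f := by
  classical
  have h1 : hammingNorm (fun x : G => f (QuotientGroup.mk x)) =
      Nat.card {x : G // f (QuotientGroup.mk x) ≠ 0} := by
    rw [Nat.card_eq_fintype_card, Fintype.card_subtype]
    rfl
  have h2 : hammingNorm f = Nat.card {z : G ⧸ H // f z ≠ 0} := by
    rw [Nat.card_eq_fintype_card, Fintype.card_subtype]
    rfl
  rw [h1, h2, ← Nat.card_prod]
  let e : G ≃ (G ⧸ H) × H := Subgroup.groupEquivQuotientProdSubgroup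
  have he : ∀ x, (e x).1 = QuotientGroup.mk x := fun x => rfl
  refine Nat.card_congr ?_
  refine (e.subtypeEquiv (q := fun z => f z.1 ≠ 0) fun x => by rw [he]).trans ?_
  exact
    { toFun := fun z => (z.1.2, ⟨z.1.1, z.2⟩)
      invFun := fun z => ⟨(z.2.1, z.1), z.2.2⟩
      left_inv := fun z => rfl
      right_inv := fun z => rfl }

omit [Fintype F] [DecidableEq F] in
theorem quo_inv {G : Type} [Group G] (H : Subgroup G) [H.Normal] (C : Submodule F (G → F))
    (hC : ∀ g : G, ∀ f ∈ C, (fun x => f (g * x)) ∈ C) :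
    ∀ g : G ⧸ H, ∀ f ∈ quo H C, (fun x => f (g * x)) ∈ quo H C := by
  intro g f hf
  induction g using QuotientGroup.induction_on with
  | H g => exact hC g _ hf

end red

end Pool.Agent.H144.Ext
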