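import Mathlib
import Pool.Agent.H144.GenExt

set_option autoImplicit false

namespace Pool.Agent.H144.Ext

open Finset

/-- A commutative group structure on the quotient. -/
def commQuot {G : Type} [Group G] (H : Subgroup G) [H.Normal]
    (hcomm : ∀ a b : G, a * b * a⁻¹ * b⁻¹ ∈ H) : CommGroup (G ⧸ H) :=
  { (inferInstance : Group (G ⧸ H)) with
    mul_comm := by
      intro a b
      induction a using QuotientGroup.induction_on with
      | H a =>
        induction b using QuotientGroup.induction_on with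
        | H b =>
          show ((a * b : G) : G ⧸ H) = ((b * a : G) : G ⧸ H)
          rw [QuotientGroup.eq]
          have h1 := hcomm b⁻¹ a⁻¹
          have h2 : b⁻¹ * a⁻¹ * b⁻¹⁻¹ * a⁻¹⁻¹ = (a * b)⁻¹ * (b * a) := by
            rw [mul_inv_rev, inv_inv, inv_inv, mul_assoc]
          rwa [h2] at h1 }

section reg

variable {F : Type} [Field F] [DecidableEq F]

theorem compareR (p k : ℕ) [Fact p.Prime] [CharP F p] (A : Type) [CommGroup A] [Fintype A]
    (hk : p ^ k ∣ Monoid.exponent A) (C : Submodule F (A → F))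
    (hC : ∀ g : A, ∀ f ∈ C, (fun x => f (g * x)) ∈ C)
    (B : Submodule F (ZMod (p ^ k) → F)) (hB : ∀ a, ∀ f ∈ B, (fun x => f (a + x)) ∈ B)
    (hdim : Module.finrank F B * Fintype.card A < Module.finrank F C * p ^ k + Fintype.card A)
    (b : ZMod (p ^ k) → F) (hb : b ∈ B) (hb0 : b ≠ 0) :
    ∃ c ∈ C, c ≠ 0 ∧ hammingNorm c * p ^ k ≤ hammingNorm b * Fintype.card A :=
  Rep.compare p k A A hk C hC B hB hdim b hb hb0

theorem productR (p k : ℕ) [Fact p.Prime] [CharP F p] (A : Type) [CommGroup A] [Fintype A]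
    (hk : p ^ k ∣ Monoid.exponent A) (C : Submodule F (A → F))
    (hC : ∀ g : A, ∀ f ∈ C, (fun x => f (g * x)) ∈ C) (d : ℕ)
    (hd : ∀ f ∈ C, f ≠ 0 → d ≤ hammingNorm f) :
    Module.finrank F C * d * p ^ k ≤ p * Fintype.card A ^ 2 :=
  Rep.product p k A A hk C hC d hd

theorem lpartR [Fintype F] (l : ℕ) (hl : l.Prime) (hlF : (l : F) ≠ 0) (δ ε : ℝ) (hδ : 0 < δ)
    (hε : 0 < ε) :
    ∃ K : ℕ, ∀ (s : ℕ) (A : Type) [CommGroup A] [Fintype A], l ^ (K * (s + 1)) ∣ Fintype.card A →
      (∀ p : ℕ, p.Prime → p ∣ Fintype.card A → p ≠ l → (p : F) ≠ 0 →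
        ¬ l ^ (s + 1) ∣ orderOf ((Fintype.card F : ℕ) : ZMod p)) →
      ∀ C : Submodule F (A → F), (∀ g : A, ∀ f ∈ C, (fun x => f (g * x)) ∈ C) →
      (∀ f ∈ C, f ≠ 0 → δ * Fintype.card A ≤ hammingNorm f) →
      (Module.finrank F C : ℝ) ≤ ε * Fintype.card A := by
  obtain ⟨K, hK⟩ := Cast.lpart F l hl hlF δ ε hδ hε
  exact ⟨K, fun s A _ _ h1 h2 C hC h3 => hK s A A h1 h2 C hC h3⟩

end reg

section two

variable {F : Type} [Field F] [Fintype F] [DecidableEq F]

theorem compareG (p k : ℕ) [Fact p.Prime] [CharP F p] (G : Type) [Group G] [Fintype G]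
    (H : Subgroup G) [H.Normal] (hH : IsPGroup p H) (hcomm : ∀ a b : G, a * b * a⁻¹ * b⁻¹ ∈ H)
    (hk : p ^ k ∣ Monoid.exponent (G ⧸ H)) (C : Submodule F (G → F))
    (hC : ∀ g : G, ∀ f ∈ C, (fun x => f (g * x)) ∈ C)
    (B : Submodule F (ZMod (p ^ k) → F)) (hB : ∀ a, ∀ f ∈ B, (fun x => f (a + x)) ∈ B)
    (hdim : Module.finrank F B * Nat.card G < Module.finrank F C * p ^ k + Nat.card G)
    (b : ZMod (p ^ k) → F) (hb : b ∈ B) (hb0 : b ≠ 0) :
    ∃ c ∈ C, c ≠ 0 ∧ hammingNorm c * p ^ k ≤ hammingNorm b * Nat.card G := by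
  classical
  let _ : CommGroup (G ⧸ H) := commQuot H hcomm
  have : Fintype (G ⧸ H) := Fintype.ofFinite _
  have hcard : Nat.card G = Nat.card H * Fintype.card (G ⧸ H) := by
    rw [← Nat.card_eq_fintype_card, mul_comm]
    exact Subgroup.card_eq_card_quotient_mul_card_subgroup H
  have hHpos : 0 < Nat.card H := Nat.card_pos
  have hd := quo_dim p H hH C hC
  obtain ⟨c, hc, hc0, hcw⟩ := compareR (F := F) p k (G ⧸ H) hk (quo H C)
    (fun a f hf => quo_inv H C hC a f hf) B hB
    (by
      rw [hcard] at hdim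
      have h1 : Nat.card H * (Module.finrank F B * Fintype.card (G ⧸ H)) <
          Nat.card H * (Module.finrank F (quo H C) * p ^ k + Fintype.card (G ⧸ H)) := by
        calc Nat.card H * (Module.finrank F B * Fintype.card (G ⧸ H))
            = Module.finrank F B * (Nat.card H * Fintype.card (G ⧸ H)) := by ring
          _ < Module.finrank F C * p ^ k + Nat.card H * Fintype.card (G ⧸ H) := hdim
          _ ≤ Nat.card H * Module.finrank F (quo H C) * p ^ k +
              Nat.card H * Fintype.card (G ⧸ H) := by gcongr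
          _ = _ := by ring
      exact Nat.lt_of_mul_lt_mul_left h1) b hb hb0
  refine ⟨_, hc, ?_, ?_⟩
  · intro h
    apply hc0
    funext z
    induction z using QuotientGroup.induction_on with
    | H x => exact congrFun h x
  · show hammingNorm (fun x : G => c (QuotientGroup.mk x)) * p ^ k ≤ _
    rw [quo_norm H c, hcard]
    calc Nat.card H * hammingNorm c * p ^ k = Nat.card H * (hammingNorm c * p ^ k) := by ring
      _ ≤ Nat.card H * (hammingNorm b * Fintype.card (G ⧸ H)) := Nat.mul_le_mul_left _ hcw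
      _ = _ := by ring

theorem productG (p k : ℕ) [Fact p.Prime] [CharP F p] (G : Type) [Group G] [Fintype G]
    (H : Subgroup G) [H.Normal] (hH : IsPGroup p H) (hcomm : ∀ a b : G, a * b * a⁻¹ * b⁻¹ ∈ H)
    (hk : p ^ k ∣ Monoid.exponent (G ⧸ H)) (C : Submodule F (G → F))
    (hC : ∀ g : G, ∀ f ∈ C, (fun x => f (g * x)) ∈ C) (d : ℕ)
    (hd : ∀ f ∈ C, f ≠ 0 → d ≤ hammingNorm f) :
    Module.finrank F C * d * p ^ k ≤ p * Nat.card G ^ 2 := by
  classical
  let _ : CommGroup (G ⧸ H) := commQuot H hcomm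
  have : Fintype (G ⧸ H) := Fintype.ofFinite _
  have hcard : Nat.card G = Nat.card H * Fintype.card (G ⧸ H) := by
    rw [← Nat.card_eq_fintype_card, mul_comm]
    exact Subgroup.card_eq_card_quotient_mul_card_subgroup H
  have hHpos : 0 < Nat.card H := Nat.card_pos
  have hdim := quo_dim p H hH C hC
  -- the minimum weight of the quotient code
  obtain ⟨d', hd1, hd2⟩ : ∃ d', d ≤ Nat.card H * d' ∧ ∀ f ∈ quo H C, f ≠ 0 → d' ≤ hammingNorm f := by
    refine ⟨(d + Nat.card H - 1) / Nat.card H, ?_, ?_⟩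
    · have h1 := Nat.div_add_mod (d + Nat.card H - 1) (Nat.card H)
      have h2 := Nat.mod_lt (d + Nat.card H - 1) hHpos
      omega
    · intro f hf hf0
      have h1 := hd (fun x : G => f (QuotientGroup.mk x)) hf (by
        intro h
        apply hf0
        funext z
        induction z using QuotientGroup.induction_on with
        | H x => exact congrFun h x)
      rw [quo_norm H f] at h1
      have h2 : (d + Nat.card H - 1) / Nat.card H < hammingNorm f + 1 := by
        rw [Nat.div_lt_iff_lt_mul hHpos]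
        have : (hammingNorm f + 1) * Nat.card H = Nat.card H * hammingNorm f + Nat.card H := by ring
        omega
      omega
  have h1 := productR (F := F) p k (G ⧸ H) hk (quo H C)
    (fun a f hf => quo_inv H C hC a f hf) d' hd2
  calc Module.finrank F C * d * p ^ k
      ≤ (Nat.card H * Module.finrank F (quo H C)) * (Nat.card H * d') * p ^ k := by gcongr
    _ = Nat.card H ^ 2 * (Module.finrank F (quo H C) * d' * p ^ k) := by ring
    _ ≤ Nat.card H ^ 2 * (p * Fintype.card (G ⧸ H) ^ 2) := Nat.mul_le_mul_left _ h1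
    _ = p * Nat.card G ^ 2 := by rw [hcard]; ring

theorem lpartG (l : ℕ) (hl : l.Prime) (hlF : (l : F) ≠ 0) (δ ε : ℝ) (hδ : 0 < δ) (hε : 0 < ε) :
    ∃ K : ℕ, ∀ (s p : ℕ) [Fact p.Prime] [CharP F p] (G : Type) [Group G] [Fintype G]
      (H : Subgroup G) [H.Normal], IsPGroup p H → (∀ a b : G, a * b * a⁻¹ * b⁻¹ ∈ H) →
      l ^ (K * (s + 1)) ∣ Nat.card G →
      (∀ r : ℕ, r.Prime → r ∣ Nat.card G → r ≠ l → r ≠ p →
        ¬ l ^ (s + 1) ∣ orderOf ((Fintype.card F : ℕ) : ZMod r)) →
      ∀ C : Submodule F (G → F), (∀ g : G, ∀ f ∈ C, (fun x => f (g * x)) ∈ C) →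
      (∀ f ∈ C, f ≠ 0 → δ * Nat.card G ≤ hammingNorm f) →
      (Module.finrank F C : ℝ) ≤ ε * Nat.card G := by
  classical
  obtain ⟨K, hK⟩ := lpartR (F := F) l hl hlF δ ε hδ hε
  refine ⟨K, ?_⟩
  intro s p _ _ G _ _ H _ hH hcomm hdvd hord C hC hd
  have hp : p.Prime := Fact.out
  let _ : CommGroup (G ⧸ H) := commQuot H hcomm
  have : Fintype (G ⧸ H) := Fintype.ofFinite _
  have hcard : Nat.card G = Nat.card H * Fintype.card (G ⧸ H) := by
    rw [← Nat.card_eq_fintype_card, mul_comm]
    exact Subgroup.card_eq_card_quotient_mul_card_subgroup H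
  have hHpos : 0 < Nat.card H := Nat.card_pos
  have hlp : l ≠ p := by
    rintro rfl
    exact hlF (CharP.cast_eq_zero F l)
  have hdim := quo_dim p H hH C hC
  obtain ⟨n, hn⟩ := (IsPGroup.iff_card (p := p)).1 hH
  have h1 := hK s (G ⧸ H)
    (by
      rw [hcard, hn] at hdvd
      have h1 : Nat.Coprime (l ^ (K * (s + 1))) (p ^ n) :=
        Nat.Coprime.pow _ _ ((Nat.coprime_primes hl hp).2 hlp)
      exact h1.dvd_of_dvd_mul_left hdvd)
    (by
      intro r hr hrd hrl hrF
      refine hord r hr ?_ hrl ?_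
      · rw [hcard]
        exact hrd.mul_left _
      · rintro rfl
        exact hrF (CharP.cast_eq_zero F r))
    (quo H C) (fun a f hf => quo_inv H C hC a f hf)
    (by
      intro f hf hf0
      have h2 := hd (fun x : G => f (QuotientGroup.mk x)) hf (by
        intro h
        apply hf0
        funext z
        induction z using QuotientGroup.induction_on with
        | H x => exact congrFun h x)
      rw [quo_norm H f, hcard] at h2
      push_cast at h2
      have h3 : (0 : ℝ) < Nat.card H := by exact_mod_cast hHpos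
      rw [← mul_le_mul_iff_of_pos_left h3]
      linarith)
  calc (Module.finrank F C : ℝ) ≤ Nat.card H * Module.finrank F (quo H C) := by exact_mod_cast hdim
    _ ≤ Nat.card H * (ε * Fintype.card (G ⧸ H)) := by gcongr
    _ = ε * Nat.card G := by rw [hcard]; push_cast; ring

end two

end Pool.Agent.H144.Ext
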